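import Pool.Agent.Lib.MP_35885f_lg.TStat

/-!
# Row BDC: branch decompositions are inherited by contraction
-/

open Finset

namespace Pool.MP_35885f.LG

open scoped Classical

lemma bdc_mem {ι V : Type} {a b : ι → V} {K : Finset ι} {v : V} :
    v ∈ Vx a b K ↔ ∃ i ∈ K, a i = v ∨ b i = v := by
  simp only [Vx, Finset.mem_union, Finset.mem_image]
  constructor
  · rintro (⟨i, hi, h⟩ | ⟨i, hi, h⟩)
    · exact ⟨i, hi, Or.inl h⟩
    · exact ⟨i, hi, Or.inr h⟩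
  · rintro ⟨i, hi, h | h⟩
    · exact Or.inl ⟨i, hi, h⟩
    · exact Or.inr ⟨i, hi, h⟩

lemma bdc_mem' {ι V : Type} {a b : ι → V} {K : Finset ι} {v : V} {φ : V → V} :
    v ∈ Vx (φ ∘ a) (φ ∘ b) K ↔ ∃ x ∈ Vx a b K, φ x = v := by
  simp only [bdc_mem, Function.comp_apply]
  constructor
  · rintro ⟨i, hi, h | h⟩
    · exact ⟨a i, ⟨i, hi, Or.inl rfl⟩, h⟩
    · exact ⟨b i, ⟨i, hi, Or.inr rfl⟩, h⟩
  · rintro ⟨x, ⟨i, hi, rfl | rfl⟩, h⟩
    · exact ⟨i, hi, Or.inl h⟩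
    · exact ⟨i, hi, Or.inr h⟩

theorem bdc : BDC := by
  intro ι V E a b t K j hj h
  set φ : V → V := fun v => if v = b j then a j else v with hφ
  induction h with
  | leaf K h => exact BD.leaf _ ((Finset.card_le_card (Finset.erase_subset _ _)).trans h)
  | node K₁ K₂ h₁ h₂ h ih₁ ih₂ =>
    rw [Finset.erase_union_distrib]
    refine BD.node _ _ ih₁ ih₂ ?_
    rw [← Finset.erase_union_distrib]
    refine (Finset.card_le_card (t := (bdry E a b (K₁ ∪ K₂)).image φ) ?_).trans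
      (Finset.card_image_le.trans h)
    generalize K₁ ∪ K₂ = K
    intro v hv
    rw [bdry, Finset.mem_inter, bdc_mem', bdc_mem'] at hv
    obtain ⟨⟨x, hx, hxv⟩, y, hy, hyv⟩ := hv
    have hx' : x ∈ Vx a b K := by
      rw [bdc_mem] at hx ⊢
      obtain ⟨i, hi, h⟩ := hx
      exact ⟨i, Finset.mem_of_mem_erase hi, h⟩
    have hy' : y ∈ Vx a b (E \ K) := by
      rw [bdc_mem] at hy ⊢
      obtain ⟨i, hi, h⟩ := hy
      simp only [Finset.mem_sdiff, Finset.mem_erase, not_and] at hi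
      exact ⟨i, Finset.mem_sdiff.2 ⟨hi.1.2, hi.2 hi.1.1⟩, h⟩
    rw [Finset.mem_image]
    by_cases hxy : x = y
    · subst hxy
      exact ⟨x, Finset.mem_inter.2 ⟨hx', hy'⟩, hxv⟩
    have hb : (x = a j ∨ x = b j) ∧ (y = a j ∨ y = b j) := by
      have e : φ x = φ y := hxv.trans hyv.symm
      simp only [hφ] at e
      by_cases h1 : x = b j <;> by_cases h2 : y = b j
      · exact absurd (h1.trans h2.symm) hxy
      · rw [if_pos h1, if_neg h2] at e
        exact ⟨Or.inr h1, Or.inl e.symm⟩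
      · rw [if_neg h1, if_pos h2] at e
        exact ⟨Or.inl e, Or.inr h2⟩
      · rw [if_neg h1, if_neg h2] at e
        exact absurd e hxy
    by_cases hjK : j ∈ K
    · refine ⟨y, Finset.mem_inter.2 ⟨?_, hy'⟩, hyv⟩
      rw [bdc_mem]
      rcases hb.2 with h | h
      · exact ⟨j, hjK, Or.inl h.symm⟩
      · exact ⟨j, hjK, Or.inr h.symm⟩
    · refine ⟨x, Finset.mem_inter.2 ⟨hx', ?_⟩, hxv⟩
      rw [bdc_mem]
      rcases hb.1 with h | h
      · exact ⟨j, Finset.mem_sdiff.2 ⟨hj, hjK⟩, Or.inl h.symm⟩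
      · exact ⟨j, Finset.mem_sdiff.2 ⟨hj, hjK⟩, Or.inr h.symm⟩

end Pool.MP_35885f.LG
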