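import Pool.Agent.Lib.MP_35885f_lg.TStat

/-!
# Row BDE: branch decompositions are inherited by deletion
-/

open Finset

namespace Pool.MP_35885f.LG

open scoped Classical

lemma bde_mono {ι V : Type} {a b : ι → V} {K L : Finset ι} (h : K ⊆ L) : Vx a b K ⊆ Vx a b L :=
  Finset.union_subset_union (Finset.image_subset_image h) (Finset.image_subset_image h)

theorem bde : BDE := by
  intro ι V E a b t K j h
  induction h with
  | leaf K h => exact BD.leaf _ ((Finset.card_le_card (Finset.erase_subset _ _)).trans h)
  | node K₁ K₂ h₁ h₂ h ih₁ ih₂ =>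
    rw [Finset.erase_union_distrib]
    refine BD.node _ _ ih₁ ih₂ ?_
    rw [← Finset.erase_union_distrib]
    refine (Finset.card_le_card ?_).trans h
    refine Finset.inter_subset_inter (bde_mono (Finset.erase_subset _ _)) (bde_mono ?_)
    intro i hi
    simp only [Finset.mem_sdiff, Finset.mem_erase, not_and] at hi
    exact Finset.mem_sdiff.2 ⟨hi.1.2, hi.2 hi.1.1⟩

end Pool.MP_35885f.LG
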