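import Pool.Agent.Lib.MP_35885f_lg.TStat

/-!
# Row BDS: a part of prescribed size
-/

open Finset

namespace Pool.MP_35885f.LG

open scoped Classical

theorem bds_union {ι V : Type} (a b : ι → V) (K₁ K₂ : Finset ι) :
    (Vx a b (K₁ ∪ K₂)).card ≤ (Vx a b K₁).card + (Vx a b K₂).card := by
  refine (Finset.card_le_card (t := Vx a b K₁ ∪ Vx a b K₂) ?_).trans (Finset.card_union_le _ _)
  unfold Vx
  rw [Finset.image_union, Finset.image_union]
  intro v hv
  simp only [Finset.mem_union] at hv ⊢
  tauto

theorem bds_leaf {ι V : Type} (a b : ι → V) (K : Finset ι) (h : K.card ≤ 1) :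
    (Vx a b K).card ≤ 2 := by
  have h1 := Finset.card_image_le (s := K) (f := a)
  have h2 := Finset.card_image_le (s := K) (f := b)
  have h3 := Finset.card_union_le (K.image a) (K.image b)
  unfold Vx
  omega

theorem bds : BDS := by
  intro ι V E a b t M K hM hK
  induction hK with
  | leaf K h =>
    intro h1
    have := bds_leaf a b K h
    omega
  | node K₁ K₂ h₁ h₂ h ih₁ ih₂ =>
    intro hc
    by_cases c1 : M ≤ (Vx a b K₁).card
    · obtain ⟨K', hK', h3⟩ := ih₁ c1
      exact ⟨K', hK'.trans Finset.subset_union_left, h3⟩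
    · by_cases c2 : M ≤ (Vx a b K₂).card
      · obtain ⟨K', hK', h3⟩ := ih₂ c2
        exact ⟨K', hK'.trans Finset.subset_union_right, h3⟩
      · have := bds_union a b K₁ K₂
        exact ⟨K₁ ∪ K₂, Finset.Subset.refl _, hc, by omega, h⟩

end Pool.MP_35885f.LG
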