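import Pool.Agent.Lib.MP_35885f_lg.CNT

/-!
# Row BDT: from a tree decomposition to a branch decomposition
-/

open Finset

namespace Pool.MP_35885f.LG

open scoped Classical

section Rooted

variable {V N : Type} (bag : N → Finset V) (par : N → N) (ρ : N → ℕ)

/-- the nodes below `x` -/
def Below (x y : N) : Prop := ∃ n : ℕ, par^[n] y = x

variable {bag par ρ}

theorem Below.trans {x y z : N} (h1 : Below par x y) (h2 : Below par y z) : Below par x z := by
  obtain ⟨n, hn⟩ := h1
  obtain ⟨m, hm⟩ := h2
  exact ⟨n + m, by rw [Function.iterate_add_apply, hm, hn]⟩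

theorem climb (hbag : ∀ v s s', v ∈ bag s → v ∈ bag s' → ρ s < ρ s' → v ∈ bag (par s) ∧ par s ≠ s)
    (hpar : ∀ s, par s ≠ s → ρ s < ρ (par s)) (hinj : Function.Injective ρ) {v : V} {t : N}
    (ht : v ∈ bag t) (hmax : ∀ s, v ∈ bag s → ρ s ≤ ρ t) :
    ∀ (d : ℕ) (y : N), ρ t - ρ y ≤ d → v ∈ bag y →
      ∃ n : ℕ, par^[n] y = t ∧ ∀ m ≤ n, v ∈ bag (par^[m] y) := by
  intro d
  induction d with
  | zero =>
    intro y hd hy
    have h1 := hmax y hy
    have h2 : y = t := hinj (by omega)
    refine ⟨0, h2, fun m hm => ?_⟩
    have : m = 0 := by omega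
    rw [this]; exact hy
  | succ d ih =>
    intro y hd hy
    by_cases hyt : y = t
    · refine ⟨0, hyt, fun m hm => ?_⟩
      have : m = 0 := by omega
      rw [this]; exact hy
    · have h1 : ρ y < ρ t := lt_of_le_of_ne (hmax y hy) fun h => hyt (hinj h)
      obtain ⟨h2, h3⟩ := hbag v y t hy ht h1
      have h4 := hpar y h3
      obtain ⟨n, hn1, hn2⟩ := ih (par y) (by omega) h2
      refine ⟨n + 1, hn1, fun m hm => ?_⟩
      rcases m with _ | m
      · exact hy
      · exact hn2 m (by omega)

end Rooted

theorem bdt_core {ι V N : Type} [Fintype N] (bag : N → Finset V) (par : N → N) (ρ : N → ℕ)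
    (hinj : Function.Injective ρ) (hpar : ∀ s, par s ≠ s → ρ s < ρ (par s))
    (hbag : ∀ v s s', v ∈ bag s → v ∈ bag s' → ρ s < ρ s' → v ∈ bag (par s) ∧ par s ≠ s)
    (E : Finset ι) (a b : ι → V) (home : ι → N)
    (hend : ∀ e ∈ E, ∀ v, (a e = v ∨ b e = v) → v ∈ bag (home e)) (k : ℕ)
    (hk : ∀ x, (bag x).card ≤ k + 1) : BD E a b (k + 1) E := by
  -- all nodes of a vertex climb to its top
  have htop : ∀ v y, v ∈ bag y → ∃ t, v ∈ bag t ∧ ∀ y', v ∈ bag y' →
      ∃ n : ℕ, par^[n] y' = t ∧ ∀ m ≤ n, v ∈ bag (par^[m] y') := by
    intro v y hy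
    obtain ⟨t, ht, hmax⟩ := Finset.exists_max_image (univ.filter fun s => v ∈ bag s) ρ
      ⟨y, by simpa using hy⟩
    have ht' : v ∈ bag t := by simpa using ht
    exact ⟨t, ht', fun y' hy' => climb hbag hpar hinj ht'
      (fun s hs => hmax s (by simpa using hs)) _ y' le_rfl hy'⟩
  -- nodes of a vertex outside of the bag of the parent
  have hchild : ∀ c v y y', v ∉ bag (par c) → Below par c y → v ∈ bag y → v ∈ bag y' →
      Below par c y' := by
    intro c v y y' hvx hcy hy hy'
    obtain ⟨t, ht, hcl⟩ := htop v y hy
    obtain ⟨n, hn1, hn2⟩ := hcl y hy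
    obtain ⟨p, hp⟩ := hcy
    have htc : Below par c t := by
      by_cases hnp : n ≤ p
      · refine ⟨p - n, ?_⟩
        rw [← hn1, ← Function.iterate_add_apply, Nat.sub_add_cancel hnp, hp]
      · exfalso
        apply hvx
        have := hn2 (p + 1) (by omega)
        rwa [Function.iterate_succ_apply', hp] at this
    obtain ⟨n', hn', _⟩ := hcl y' hy'
    exact htc.trans ⟨n', hn'⟩
  have hroot : ∀ r v y y', par r = r → Below par r y → v ∈ bag y → v ∈ bag y' →
      Below par r y' := by
    intro r v y y' hr hry hy hy'
    obtain ⟨t, ht, hcl⟩ := htop v y hy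
    obtain ⟨n, hn1, hn2⟩ := hcl y hy
    obtain ⟨p, hp⟩ := hry
    have hfix : ∀ q : ℕ, par^[q] r = r := fun q => Function.iterate_fixed hr q
    have htc : Below par r t := by
      by_cases hnp : n ≤ p
      · refine ⟨p - n, ?_⟩
        rw [← hn1, ← Function.iterate_add_apply, Nat.sub_add_cancel hnp, hp]
      · refine ⟨0, ?_⟩
        have h1 : n = (n - p) + p := by omega
        rw [h1, Function.iterate_add_apply, hp, hfix] at hn1
        exact hn1.symm
    obtain ⟨n', hn', _⟩ := hcl y' hy'
    exact htc.trans ⟨n', hn'⟩
  set EX : N → Finset ι := fun x => E.filter fun e => Below par x (home e) with hEX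
  have hmemEX : ∀ x e, e ∈ EX x ↔ e ∈ E ∧ Below par x (home e) := by
    intro x e; rw [hEX, Finset.mem_filter]
  -- the boundary of a union of children and of home edges
  have hbd : ∀ (x : N) (C : Finset N) (H : Finset ι), (∀ c ∈ C, par c = x) →
      (∀ e ∈ H, e ∈ E ∧ home e = x) → (bdry E a b (C.biUnion EX ∪ H)).card ≤ k + 1 := by
    intro x C H hC hH
    refine (Finset.card_le_card ?_).trans (hk x)
    intro v hv
    unfold bdry at hv
    rw [Finset.mem_inter, mem_Vx, mem_Vx] at hv
    obtain ⟨⟨e, he, hev⟩, f, hf, hfv⟩ := hv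
    by_contra hvx
    obtain ⟨hf1, hf2⟩ := Finset.mem_sdiff.1 hf
    rcases Finset.mem_union.1 he with he | he
    · obtain ⟨c, hc, he⟩ := Finset.mem_biUnion.1 he
      obtain ⟨he1, he2⟩ := (hmemEX c e).1 he
      apply hf2
      refine Finset.mem_union_left _ (Finset.mem_biUnion.2 ⟨c, hc, (hmemEX c f).2 ⟨hf1, ?_⟩⟩)
      exact hchild c v (home e) (home f) (by rw [hC c hc]; exact hvx) he2 (hend e he1 v hev)
        (hend f hf1 v hfv)
    · apply hvx
      have := hend e (hH e he).1 v hev
      rwa [(hH e he).2] at this
  -- the subtrees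
  have hsub : ∀ (d : ℕ) (x : N), ρ x ≤ d → BD E a b (k + 1) (EX x) := by
    intro d
    induction d with
    | zero =>
      intro x hx
      -- no children
      have hEXx : EX x = (∅ : Finset N).biUnion EX ∪ E.filter fun e => home e = x := by
        ext e
        rw [hmemEX, Finset.biUnion_empty, Finset.empty_union, Finset.mem_filter]
        constructor
        · rintro ⟨h1, n, hn⟩
          refine ⟨h1, ?_⟩
          induction n with
          | zero => exact hn
          | succ n ihn =>
            rw [Function.iterate_succ_apply'] at hn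
            by_cases h2 : par (par^[n] (home e)) = par^[n] (home e)
            · exact ihn (by rw [← h2, hn])
            · have := hpar _ h2
              rw [hn] at this
              omega
        · rintro ⟨h1, h2⟩
          exact ⟨h1, 0, h2⟩
      rw [hEXx]
      have key : ∀ H : Finset ι, (∀ e ∈ H, e ∈ E ∧ home e = x) →
          BD E a b (k + 1) ((∅ : Finset N).biUnion EX ∪ H) := by
        intro H
        induction H using Finset.induction_on with
        | empty => intro _; exact BD.leaf _ (by simp)
        | insert e H heH ihH =>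
          intro hH
          have h1 : (∅ : Finset N).biUnion EX ∪ insert e H =
              ((∅ : Finset N).biUnion EX ∪ H) ∪ {e} := by
            ext f; simp only [Finset.mem_union, Finset.mem_insert, Finset.mem_singleton]; tauto
          have h2 := hbd x ∅ (insert e H) (by simp) hH
          rw [h1] at h2 ⊢
          exact BD.node _ _ (ihH fun f hf => hH f (Finset.mem_insert_of_mem hf))
            (BD.leaf _ (by simp)) h2
      exact key _ fun e he => by simpa using he
    | succ d ih =>
      intro x hx
      set C : Finset N := univ.filter fun c => par c = x ∧ c ≠ x with hC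
      have hEXx : EX x = C.biUnion EX ∪ E.filter fun e => home e = x := by
        ext e
        rw [hmemEX, Finset.mem_union, Finset.mem_biUnion, Finset.mem_filter]
        constructor
        · rintro ⟨h1, n, hn⟩
          induction n with
          | zero => exact Or.inr ⟨h1, hn⟩
          | succ n ihn =>
            rw [Function.iterate_succ_apply'] at hn
            by_cases h2 : par^[n] (home e) = x
            · exact ihn h2
            · left
              refine ⟨par^[n] (home e), ?_, (hmemEX _ _).2 ⟨h1, n, rfl⟩⟩
              rw [hC, Finset.mem_filter]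
              exact ⟨Finset.mem_univ _, hn, h2⟩
        · rintro (⟨c, hc, he⟩ | ⟨h1, h2⟩)
          · obtain ⟨h1, h2⟩ := (hmemEX c e).1 he
            rw [hC, Finset.mem_filter] at hc
            exact ⟨h1, Below.trans ⟨1, hc.2.1⟩ h2⟩
          · exact ⟨h1, 0, h2⟩
      rw [hEXx]
      have keyC : ∀ C' : Finset N, C' ⊆ C → BD E a b (k + 1) (C'.biUnion EX ∪ ∅) := by
        intro C'
        induction C' using Finset.induction_on with
        | empty => intro _; exact BD.leaf _ (by simp)
        | insert c C' hcC' ihC' =>
          intro hsub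
          have h0 : ∀ c' ∈ insert c C', par c' = x ∧ c' ≠ x := by
            intro c' hc'
            have := hsub hc'
            rw [hC, Finset.mem_filter] at this
            exact this.2
          have h1 : (insert c C').biUnion EX ∪ (∅ : Finset ι) =
              (C'.biUnion EX ∪ ∅) ∪ EX c := by
            ext f
            simp only [Finset.biUnion_insert, Finset.mem_union]
            tauto
          have h2 := hbd x (insert c C') ∅ (fun c' hc' => (h0 c' hc').1) (by simp)
          rw [h1] at h2 ⊢
          obtain ⟨h3, h4⟩ := h0 c (Finset.mem_insert_self _ _)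
          have h5 : ρ c < ρ x := by
            have := hpar c (by rw [h3]; exact Ne.symm h4)
            rwa [h3] at this
          exact BD.node _ _ (ihC' fun c' hc' => hsub (Finset.mem_insert_of_mem hc'))
            (ih c (by omega)) h2
      have key : ∀ H : Finset ι, (∀ e ∈ H, e ∈ E ∧ home e = x) →
          BD E a b (k + 1) (C.biUnion EX ∪ H) := by
        intro H
        induction H using Finset.induction_on with
        | empty => intro _; exact keyC C (Finset.Subset.refl _)
        | insert e H heH ihH =>
          intro hH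
          have h1 : C.biUnion EX ∪ insert e H = (C.biUnion EX ∪ H) ∪ {e} := by
            ext f; simp only [Finset.mem_union, Finset.mem_insert, Finset.mem_singleton]; tauto
          have h2 := hbd x C (insert e H) (fun c hc => by
            rw [hC, Finset.mem_filter] at hc; exact hc.2.1) hH
          rw [h1] at h2 ⊢
          exact BD.node _ _ (ihH fun f hf => hH f (Finset.mem_insert_of_mem hf))
            (BD.leaf _ (by simp)) h2
      exact key _ fun e he => by simpa using he
  -- the roots
  set R : Finset N := univ.filter fun r => par r = r with hR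
  have hEeq : E = R.biUnion EX := by
    ext e
    rw [Finset.mem_biUnion]
    constructor
    · intro he
      have hcl : ∀ (d : ℕ) (y : N), (univ.sup ρ) - ρ y ≤ d → ∃ r, par r = r ∧ Below par r y := by
        intro d
        induction d with
        | zero =>
          intro y hy
          by_cases h : par y = y
          · exact ⟨y, h, 0, rfl⟩
          · have h1 := hpar y h
            have h2 : ρ (par y) ≤ univ.sup ρ := Finset.le_sup (mem_univ _)
            omega
        | succ d ih =>
          intro y hy
          by_cases h : par y = y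
          · exact ⟨y, h, 0, rfl⟩
          · have h1 := hpar y h
            have h2 : ρ (par y) ≤ univ.sup ρ := Finset.le_sup (mem_univ _)
            obtain ⟨r, hr, hb⟩ := ih (par y) (by omega)
            exact ⟨r, hr, hb.trans ⟨1, rfl⟩⟩
      obtain ⟨r, hr, hbel⟩ := hcl _ (home e) le_rfl
      refine ⟨r, ?_, (hmemEX r e).2 ⟨he, hbel⟩⟩
      rw [hR, Finset.mem_filter]
      exact ⟨Finset.mem_univ _, hr⟩
    · rintro ⟨r, _, he⟩
      exact ((hmemEX r e).1 he).1
  have keyR : ∀ R' : Finset N, R' ⊆ R → BD E a b (k + 1) (R'.biUnion EX) := by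
    intro R'
    induction R' using Finset.induction_on with
    | empty => intro _; exact BD.leaf _ (by simp)
    | insert r R' hrR' ihR' =>
      intro hsubR
      have h1 : (insert r R').biUnion EX = R'.biUnion EX ∪ EX r := by
        rw [Finset.biUnion_insert, Finset.union_comm]
      have h2 : bdry E a b ((insert r R').biUnion EX) = ∅ := by
        rw [Finset.eq_empty_iff_forall_notMem]
        intro v hv
        unfold bdry at hv
        rw [Finset.mem_inter, mem_Vx, mem_Vx] at hv
        obtain ⟨⟨e, he, hev⟩, f, hf, hfv⟩ := hv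
        obtain ⟨hf1, hf2⟩ := Finset.mem_sdiff.1 hf
        obtain ⟨c, hc, he⟩ := Finset.mem_biUnion.1 he
        obtain ⟨he1, he2⟩ := (hmemEX c e).1 he
        apply hf2
        refine Finset.mem_biUnion.2 ⟨c, hc, (hmemEX c f).2 ⟨hf1, ?_⟩⟩
        have hcR := hsubR hc
        rw [hR, Finset.mem_filter] at hcR
        exact hroot c v (home e) (home f) hcR.2 he2 (hend e he1 v hev) (hend f hf1 v hfv)
      have h3 : (bdry E a b (R'.biUnion EX ∪ EX r)).card ≤ k + 1 := by
        rw [← h1, h2, Finset.card_empty]; exact Nat.zero_le _
      rw [h1]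
      exact BD.node _ _ (ihR' fun c hc => hsubR (Finset.mem_insert_of_mem hc))
        (hsub _ r le_rfl) h3
  have := keyR R (Finset.Subset.refl _)
  rwa [← hEeq] at this

theorem bdt : BDT := by
  intro V _ G D k hk
  obtain ⟨par, ρ, hinj, hpar, hbag⟩ := exists_rooting D
  have := D.fin
  have : Fintype D.ι := Fintype.ofFinite _
  have hhome : ∀ e : Sym2 V, ∃ x, e ∈ (univ.filter fun e : Sym2 V => e ∈ G.edgeSet) →
      (Quot.out e).1 ∈ D.bag x ∧ (Quot.out e).2 ∈ D.bag x := by
    intro e
    by_cases he : e ∈ G.edgeSet
    · have h2 : s((Quot.out e).1, (Quot.out e).2) = e := Quot.out_eq e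
      rw [← h2, SimpleGraph.mem_edgeSet] at he
      obtain ⟨x, hx⟩ := D.edge _ _ he
      exact ⟨x, fun _ => hx⟩
    · obtain ⟨x⟩ := D.isTree.connected.nonempty
      refine ⟨x, fun h => absurd ?_ he⟩
      simpa using h
  choose home hhome using hhome
  exact bdt_core D.bag par ρ hinj hpar hbag _ _ _ home (by
    intro e he v hv
    rcases hv with h | h
    · rw [← h]; exact (hhome e he).1
    · rw [← h]; exact (hhome e he).2) k hk

end Pool.MP_35885f.LG
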