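import Pool.Agent.Lib.MP_35885f_lg.Stat

/-!
# Row WB: cheap generating sets of the cycle space of a weighted multigraph
-/

open Finset

namespace Pool.MP_35885f.LG

open scoped Classical

variable {ι V : Type}

theorem Zs_mem {E : Finset ι} {a b : ι → V} {f : ι → ZMod 2} :
    f ∈ Zs E a b ↔ (∀ i, i ∉ E → f i = 0) ∧ ∀ v, ∑ i ∈ E, f i * inc a b i v = 0 := Iff.rfl

theorem zmod2_add_self (x : ZMod 2) : x + x = 0 := by
  have h : (2 : ZMod 2) = 0 := by decide
  rw [← two_mul, h, zero_mul]

theorem zmod2_cases (x : ZMod 2) : x = 0 ∨ x = 1 := by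
  revert x; decide

theorem zmod2_eq_of_add {x y : ZMod 2} (h : x + y = 0) : x = y := by
  revert x y; decide

/-- the cycle space does not change when a useless edge is deleted -/
theorem Zs_erase_mem {E : Finset ι} {a b : ι → V} {i : ι} (hi : i ∈ E) {f : ι → ZMod 2}
    (hf : f ∈ Zs E a b) (h0 : f i = 0) : f ∈ Zs (E.erase i) a b := by
  obtain ⟨h1, h2⟩ := Zs_mem.1 hf
  refine Zs_mem.2 ⟨fun m hm => ?_, fun v => ?_⟩
  · by_cases hmi : m = i
    · rw [hmi, h0]
    · exact h1 m fun hmE => hm (Finset.mem_erase.2 ⟨hmi, hmE⟩)
  · have := h2 v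
    rw [← Finset.add_sum_erase E _ hi, h0, zero_mul, zero_add] at this
    exact this

theorem Zs_erase_le {E : Finset ι} {a b : ι → V} {i : ι} (hi : i ∈ E) :
    Zs (E.erase i) a b ≤ Zs E a b := by
  intro f hf
  obtain ⟨h1, h2⟩ := Zs_mem.1 hf
  have h0 : f i = 0 := h1 i (Finset.notMem_erase i E)
  refine Zs_mem.2 ⟨fun m hm => h1 m fun h => hm (Finset.mem_of_mem_erase h), fun v => ?_⟩
  rw [← Finset.add_sum_erase E _ hi, h0, zero_mul, zero_add]
  exact h2 v

/-- the weight of a vector -/
noncomputable def wt (E : Finset ι) (w : ι → ℝ) (z : ι → ZMod 2) : ℝ :=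
  ∑ i ∈ E, (if z i ≠ 0 then w i else 0)

theorem wt_erase {E : Finset ι} (w : ι → ℝ) {i : ι} (hi : i ∈ E) {z : ι → ZMod 2}
    (h0 : z i = 0) : wt E w z = wt (E.erase i) w z := by
  unfold wt
  rw [← Finset.add_sum_erase E _ hi]
  simp [h0]

/-- contraction of the edge `j` -/
noncomputable def con (a b : ι → V) (j : ι) (v : V) : V := if v = b j then a j else v

/-- putting back the edge `j` in series with `i` -/
noncomputable def back (i j : ι) : (ι → ZMod 2) →ₗ[ZMod 2] (ι → ZMod 2) where
  toFun z := fun m => z m + z i * (if m = j then 1 else 0)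
  map_add' x y := by
    funext m
    simp only [Pi.add_apply]
    ring
  map_smul' c x := by
    funext m
    simp only [Pi.smul_apply, smul_eq_mul, RingHom.id_apply]
    ring

theorem back_apply (i j : ι) (z : ι → ZMod 2) (m : ι) :
    back i j z m = z m + z i * (if m = j then 1 else 0) := rfl

theorem inc_con_other {a b : ι → V} {j : ι} {v : V} (h1 : v ≠ a j) (h2 : v ≠ b j) (m : ι) :
    inc (con a b j ∘ a) (con a b j ∘ b) m v = inc a b m v := by
  have key : ∀ x, (con a b j x = v) ↔ x = v := by
    intro x
    unfold con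
    by_cases hx : x = b j
    · rw [if_pos hx]
      constructor
      · intro h; exact absurd h.symm h1
      · intro h; exact absurd (h.symm.trans hx) h2
    · rw [if_neg hx]
  unfold inc
  simp only [Function.comp, key]

theorem inc_con_b {a b : ι → V} {j : ι} (hab : a j ≠ b j) (m : ι) :
    inc (con a b j ∘ a) (con a b j ∘ b) m (b j) = 0 := by
  have key : ∀ x, ¬ (con a b j x = b j) := by
    intro x
    unfold con
    by_cases hx : x = b j
    · rw [if_pos hx]; exact hab
    · rw [if_neg hx]; exact hx
  unfold inc
  simp only [Function.comp, key, if_false, add_zero]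

theorem inc_con_a {a b : ι → V} {j : ι} (hab : a j ≠ b j) (m : ι) :
    inc (con a b j ∘ a) (con a b j ∘ b) m (a j) = inc a b m (a j) + inc a b m (b j) := by
  have key : ∀ x, (if con a b j x = a j then (1 : ZMod 2) else 0) =
      (if x = a j then 1 else 0) + (if x = b j then 1 else 0) := by
    intro x
    unfold con
    by_cases hx : x = b j
    · rw [if_pos hx, if_pos rfl, if_pos hx, if_neg (fun h => hab (h.symm.trans hx)), zero_add]
    · rw [if_neg hx, if_neg hx, add_zero]
  unfold inc
  simp only [Function.comp, key]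
  ring

theorem inc_self_a {a b : ι → V} {j : ι} (hab : a j ≠ b j) : inc a b j (a j) = 1 := by
  unfold inc
  rw [if_pos rfl, if_neg (Ne.symm hab), add_zero]

theorem inc_self_b {a b : ι → V} {j : ι} (hab : a j ≠ b j) : inc a b j (b j) = 1 := by
  unfold inc
  rw [if_neg hab, if_pos rfl, zero_add]

theorem inc_self_other {a b : ι → V} {j : ι} {v : V} (h1 : v ≠ a j) (h2 : v ≠ b j) :
    inc a b j v = 0 := by
  unfold inc
  rw [if_neg (Ne.symm h1), if_neg (Ne.symm h2), add_zero]

/-- `back` maps cycles of the contraction to cycles -/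
theorem back_mem {E : Finset ι} {a b : ι → V} {i j : ι} (hj : j ∈ E)
    (hij : i ≠ j) (hab : a j ≠ b j) (hser : ∀ z ∈ Zs E a b, z i = z j) {z' : ι → ZMod 2}
    (hz' : z' ∈ Zs (E.erase j) (con a b j ∘ a) (con a b j ∘ b)) : back i j z' ∈ Zs E a b := by
  obtain ⟨h1, h2⟩ := Zs_mem.1 hz'
  have hz'j : z' j = 0 := h1 j (Finset.notMem_erase j E)
  set c : ZMod 2 := ∑ m ∈ E.erase j, z' m * inc a b m (b j) with hc
  set z : ι → ZMod 2 := fun m => z' m + c * (if m = j then 1 else 0) with hzdef
  have hzj : z j = c := by simp [hzdef, hz'j]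
  have hzm : ∀ m ∈ E.erase j, z m = z' m := by
    intro m hm
    simp [hzdef, Finset.ne_of_mem_erase hm]
  have hz : z ∈ Zs E a b := by
    refine Zs_mem.2 ⟨fun m hm => ?_, fun v => ?_⟩
    · have hmj : m ≠ j := fun h => hm (h ▸ hj)
      have : z' m = 0 := h1 m fun h => hm (Finset.mem_of_mem_erase h)
      simp [hzdef, hmj, this]
    · rw [← Finset.add_sum_erase E _ hj, hzj,
        Finset.sum_congr rfl (fun m hm => by rw [hzm m hm] :
          ∀ m ∈ E.erase j, z m * inc a b m v = z' m * inc a b m v)]
      by_cases hva : v = a j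
      · subst hva
        rw [inc_self_a hab, mul_one, hc, ← Finset.sum_add_distrib]
        have := h2 (a j)
        rw [← this]
        refine Finset.sum_congr rfl fun m _ => ?_
        rw [inc_con_a hab]
        ring
      · by_cases hvb : v = b j
        · subst hvb
          rw [inc_self_b hab, mul_one, ← hc]
          exact zmod2_add_self c
        · rw [inc_self_other hva hvb, mul_zero, zero_add, ← h2 v]
          refine Finset.sum_congr rfl fun m _ => ?_
          rw [inc_con_other hva hvb]
  have hci : z' i = c := by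
    have := hser z hz
    rw [hzj] at this
    rw [← this]
    simp [hzdef, hij]
  have : back i j z' = z := by
    funext m
    rw [back_apply, hci]
  rw [this]
  exact hz

/-- deleting the coordinate `j` gives cycles of the contraction -/
theorem del_mem {E : Finset ι} {a b : ι → V} {j : ι} (hj : j ∈ E)
    (hab : a j ≠ b j) {z : ι → ZMod 2} (hz : z ∈ Zs E a b) :
    Function.update z j 0 ∈ Zs (E.erase j) (con a b j ∘ a) (con a b j ∘ b) := by
  obtain ⟨h1, h2⟩ := Zs_mem.1 hz
  have hup : ∀ m ∈ E.erase j, Function.update z j 0 m = z m := fun m hm =>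
    Function.update_of_ne (Finset.ne_of_mem_erase hm) _ _
  have h2' : ∀ v, ∑ m ∈ E.erase j, z m * inc a b m v = z j * inc a b j v := by
    intro v
    have := h2 v
    rw [← Finset.add_sum_erase E _ hj] at this
    exact (zmod2_eq_of_add this).symm
  refine Zs_mem.2 ⟨fun m hm => ?_, fun v => ?_⟩
  · by_cases hmj : m = j
    · rw [hmj, Function.update_self]
    · rw [Function.update_of_ne hmj]
      exact h1 m fun h => hm (Finset.mem_erase.2 ⟨hmj, h⟩)
  · rw [Finset.sum_congr rfl (fun m hm => by rw [hup m hm] : ∀ m ∈ E.erase j,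
      Function.update z j 0 m * inc (con a b j ∘ a) (con a b j ∘ b) m v =
        z m * inc (con a b j ∘ a) (con a b j ∘ b) m v)]
    by_cases hva : v = a j
    · subst hva
      have : ∀ m ∈ E.erase j, z m * inc (con a b j ∘ a) (con a b j ∘ b) m (a j) =
          z m * inc a b m (a j) + z m * inc a b m (b j) := by
        intro m _
        rw [inc_con_a hab]
        ring
      rw [Finset.sum_congr rfl this, Finset.sum_add_distrib, h2' (a j), h2' (b j),
        inc_self_a hab, inc_self_b hab]
      exact zmod2_add_self _
    · by_cases hvb : v = b j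
      · subst hvb
        refine Finset.sum_eq_zero fun m _ => ?_
        rw [inc_con_b hab, mul_zero]
      · have : ∀ m ∈ E.erase j, z m * inc (con a b j ∘ a) (con a b j ∘ b) m v =
            z m * inc a b m v := by
          intro m _
          rw [inc_con_other hva hvb]
        rw [Finset.sum_congr rfl this, h2' v, inc_self_other hva hvb, mul_zero]

theorem single_mem {E : Finset ι} {a b : ι → V} {i : ι} (hi : i ∈ E) (hab : a i = b i) :
    (fun m => if m = i then (1 : ZMod 2) else 0) ∈ Zs E a b := by
  refine Zs_mem.2 ⟨fun m hm => ?_, fun v => ?_⟩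
  · have h : m ≠ i := fun h => hm (by rw [h]; exact hi)
    exact if_neg h
  rw [Finset.sum_eq_single_of_mem i hi]
  · simp only [if_true, one_mul]
    unfold inc
    rw [hab]
    exact zmod2_add_self _
  · intro m _ hmi
    rw [if_neg hmi, zero_mul]

/-- Case 3: a short nonzero cycle. -/
theorem short_cycle (hG : GIR) [Fintype V] {k : ℕ} (hk : 1 ≤ k) (hV : Fintype.card V ≤ 2 ^ k)
    {E : Finset ι} (hE : E.Nonempty) {a b : ι → V}
    (hc1 : ∀ i ∈ E, ∃ z ∈ Zs E a b, z i ≠ 0)
    (hc2 : ∀ i ∈ E, ∀ j ∈ E, i ≠ j → ∃ z ∈ Zs E a b, z i ≠ z j) :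
    ∃ z ∈ Zs E a b, (∃ i ∈ E, z i ≠ 0) ∧ (E.filter fun i => z i ≠ 0).card ≤ 2 * k := by
  by_cases hloop : ∃ i ∈ E, a i = b i
  · obtain ⟨i, hi, hab⟩ := hloop
    refine ⟨_, single_mem hi hab, ⟨i, hi, by simp⟩, ?_⟩
    have : (E.filter fun m => (if m = i then (1 : ZMod 2) else 0) ≠ 0) ⊆ {i} := by
      intro m hm
      rw [Finset.mem_filter] at hm
      by_contra h
      rw [Finset.mem_singleton] at h
      exact hm.2 (if_neg h)
    calc _ ≤ ({i} : Finset ι).card := Finset.card_le_card this
      _ = 1 := Finset.card_singleton i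
      _ ≤ 2 * k := by omega
  · push Not at hloop
    have hdeg : ∀ i ∈ E, ∀ v, (a i = v ∨ b i = v) →
        3 ≤ (E.filter fun j => a j = v ∨ b j = v).card := by
      intro i hi v hv
      set F := E.filter fun j => a j = v ∨ b j = v with hF
      have hiF : i ∈ F := Finset.mem_filter.2 ⟨hi, hv⟩
      have hsum : ∀ z ∈ Zs E a b, ∑ m ∈ F, z m = 0 := by
        intro z hz
        have h2 := (Zs_mem.1 hz).2 v
        rw [← h2, hF, Finset.sum_filter]
        refine Finset.sum_congr rfl fun m hm => ?_
        by_cases hmv : a m = v ∨ b m = v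
        · rw [if_pos hmv]
          have : inc a b m v = 1 := by
            rcases hmv with h | h
            · rw [← h]; exact inc_self_a (hloop m hm)
            · rw [← h]; exact inc_self_b (hloop m hm)
          rw [this, mul_one]
        · rw [if_neg hmv]
          push Not at hmv
          rw [inc_self_other (Ne.symm hmv.1) (Ne.symm hmv.2), mul_zero]
      by_contra hlt
      push Not at hlt
      by_cases hex : ∃ j ∈ F, j ≠ i
      · obtain ⟨j, hjF, hji⟩ := hex
        have hFeq : F = {i, j} := by
          symm
          refine Finset.eq_of_subset_of_card_le ?_ ?_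
          · intro m hm
            rw [Finset.mem_insert, Finset.mem_singleton] at hm
            rcases hm with h | h
            · rw [h]; exact hiF
            · rw [h]; exact hjF
          · rw [Finset.card_pair (Ne.symm hji)]
            omega
        obtain ⟨z, hz, hne⟩ := hc2 i hi j (Finset.mem_of_mem_filter j hjF) (Ne.symm hji)
        have := hsum z hz
        rw [hFeq, Finset.sum_pair (Ne.symm hji)] at this
        exact hne (zmod2_eq_of_add this)
      · push Not at hex
        have hFeq : F = {i} := Finset.eq_singleton_iff_unique_mem.2 ⟨hiF, hex⟩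
        obtain ⟨z, hz, hne⟩ := hc1 i hi
        have := hsum z hz
        rw [hFeq, Finset.sum_singleton] at this
        exact hne this
    obtain ⟨zf, hzE, hzne, hzb, hzc⟩ := hG ι V E a b k hk hV hE hloop hdeg
    refine ⟨fun m => if m ∈ zf then 1 else 0, Zs_mem.2 ⟨fun m hm => if_neg fun h => hm (hzE h),
      fun v => ?_⟩, ?_, ?_⟩
    · refine Eq.trans ?_ (hzb v)
      simp only [ite_mul, one_mul, zero_mul]
      rw [← Finset.sum_filter, Finset.filter_mem_eq_inter, Finset.inter_eq_right.2 hzE]
    · obtain ⟨i, hi⟩ := hzne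
      exact ⟨i, hzE hi, by simp [hi]⟩
    · refine le_trans (Finset.card_le_card ?_) hzc
      intro m hm
      rw [Finset.mem_filter] at hm
      by_contra h
      exact hm.2 (if_neg h)

theorem wb (hG : GIR) : WB := by
  intro ι V _ k hk hV E
  induction hn : E.card generalizing E with
  | zero =>
    intro a b w hw
    have hE : E = ∅ := Finset.card_eq_zero.1 hn
    subst hE
    refine ⟨∅, by simp, ?_, by simp⟩
    intro f hf
    have : f = 0 := funext fun i => (Zs_mem.1 hf).1 i (Finset.notMem_empty i)
    rw [this]
    exact Submodule.zero_mem _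
  | succ n ih =>
    intro a b w hw
    have hE : E.Nonempty := Finset.card_pos.1 (by omega)
    have hcard : ∀ i ∈ E, (E.erase i).card = n := fun i hi => by
      rw [Finset.card_erase_of_mem hi, hn]; rfl
    have h2k : (0 : ℝ) ≤ 2 * k := by positivity
    by_cases hc1 : ∃ i ∈ E, ∀ z ∈ Zs E a b, z i = 0
    · obtain ⟨i, hi, h0⟩ := hc1
      obtain ⟨S, hS1, hS2, hS3⟩ := ih (E.erase i) (hcard i hi) a b w hw
      refine ⟨S, fun z hz => Zs_erase_le hi (hS1 z hz), fun f hf =>
        hS2 (Zs_erase_mem hi hf (h0 f hf)), ?_⟩
      calc ∑ z ∈ S, ∑ i ∈ E, (if z i ≠ 0 then w i else 0)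
          = ∑ z ∈ S, ∑ i ∈ E.erase i, (if z i ≠ 0 then w i else 0) := by
            refine Finset.sum_congr rfl fun z hz => ?_
            exact wt_erase w hi (h0 z (Zs_erase_le hi (hS1 z hz)))
        _ ≤ (2 * k : ℝ) * ∑ i ∈ E.erase i, w i := hS3
        _ ≤ (2 * k : ℝ) * ∑ i ∈ E, w i := by
            refine mul_le_mul_of_nonneg_left ?_ h2k
            exact Finset.sum_le_sum_of_subset_of_nonneg (Finset.erase_subset i E)
              fun m _ _ => hw m
    by_cases hc2 : ∃ i ∈ E, ∃ j ∈ E, i ≠ j ∧ ∀ z ∈ Zs E a b, z i = z j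
    · obtain ⟨i, hi, j, hj, hij, hser⟩ := hc2
      have hab : a j ≠ b j := by
        intro hab
        have := hser _ (single_mem hj hab)
        simp [hij] at this
      have hiE' : i ∈ E.erase j := Finset.mem_erase.2 ⟨hij, hi⟩
      set w' : ι → ℝ := fun m => w m + (if m = i then w j else 0) with hw'
      have hw'0 : ∀ m, 0 ≤ w' m := fun m => by
        simp only [hw']
        split_ifs
        · exact add_nonneg (hw _) (hw _)
        · rw [add_zero]; exact hw _
      obtain ⟨S, hS1, hS2, hS3⟩ := ih (E.erase j) (hcard j hj) (con a b j ∘ a) (con a b j ∘ b)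
        w' hw'0
      have hzero : ∀ z ∈ S, z j = 0 := fun z hz =>
        (Zs_mem.1 (hS1 z hz)).1 j (Finset.notMem_erase j E)
      have hinj : Set.InjOn (back i j) (S : Set (ι → ZMod 2)) := by
        intro x hx y hy hxy
        funext m
        by_cases hm : m = j
        · rw [hm, hzero x hx, hzero y hy]
        · have := congrFun hxy m
          rw [back_apply, back_apply, if_neg hm, mul_zero, mul_zero, add_zero, add_zero] at this
          exact this
      refine ⟨S.image (back i j), ?_, ?_, ?_⟩
      · intro z hz
        obtain ⟨z', hz', rfl⟩ := Finset.mem_image.1 hz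
        exact back_mem hj hij hab hser (hS1 z' hz')
      · intro f hf
        have h1 := hS2 (del_mem hj hab hf)
        have h2 : back i j (Function.update f j 0) = f := by
          funext m
          rw [back_apply, Function.update_of_ne hij]
          by_cases hm : m = j
          · rw [hm, Function.update_self, if_pos rfl, zero_add, mul_one]
            exact hser f hf
          · rw [Function.update_of_ne hm, if_neg hm, mul_zero, add_zero]
        rw [Finset.coe_image, Submodule.span_image, ← h2]
        exact Submodule.mem_map_of_mem h1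
      · rw [Finset.sum_image hinj]
        have hwt : ∀ z ∈ S, ∑ m ∈ E, (if back i j z m ≠ 0 then w m else 0) =
            ∑ m ∈ E.erase j, (if z m ≠ 0 then w' m else 0) := by
          intro z hz
          rw [← Finset.add_sum_erase E _ hj, ← Finset.add_sum_erase (E.erase j) _ hiE',
            ← Finset.add_sum_erase (E.erase j) (fun m => if z m ≠ 0 then w' m else 0) hiE']
          have e1 : back i j z j = z i := by
            rw [back_apply, hzero z hz, if_pos rfl, mul_one, zero_add]
          have e2 : ∀ m, m ≠ j → back i j z m = z m := by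
            intro m hm
            rw [back_apply, if_neg hm, mul_zero, add_zero]
          rw [e1, e2 i hij, ← add_assoc]
          congr 1
          · simp only [hw', if_true]
            by_cases hzi : z i = 0
            · simp [hzi]
            · simp only [ne_eq, hzi, not_false_eq_true, if_true]
              ring
          · refine Finset.sum_congr rfl fun m hm => ?_
            have hmi : m ≠ i := Finset.ne_of_mem_erase hm
            have hmj : m ≠ j := Finset.ne_of_mem_erase (Finset.mem_of_mem_erase hm)
            rw [e2 m hmj]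
            simp only [hw', if_neg hmi, add_zero]
        rw [Finset.sum_congr rfl hwt]
        refine le_trans hS3 (le_of_eq ?_)
        congr 1
        rw [← Finset.add_sum_erase E _ hj, hw', Finset.sum_add_distrib,
          Finset.sum_ite_eq' (E.erase j) i (fun _ => w j), if_pos hiE', add_comm]
    · push Not at hc1 hc2
      obtain ⟨z, hz, ⟨i₀, hi₀, hzi₀⟩, hcz⟩ := short_cycle hG hk hV hE hc1 hc2
      obtain ⟨i, hiF, hmax⟩ := Finset.exists_max_image (E.filter fun i => z i ≠ 0) w
        ⟨i₀, Finset.mem_filter.2 ⟨hi₀, hzi₀⟩⟩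
      obtain ⟨hi, hzi⟩ := Finset.mem_filter.1 hiF
      have hzi1 : z i = 1 := (zmod2_cases (z i)).resolve_left hzi
      obtain ⟨S, hS1, hS2, hS3⟩ := ih (E.erase i) (hcard i hi) a b w hw
      have hzero : ∀ y ∈ S, y i = 0 := fun y hy =>
        (Zs_mem.1 (hS1 y hy)).1 i (Finset.notMem_erase i E)
      have hzS : z ∉ S := fun h => hzi (hzero z h)
      refine ⟨insert z S, ?_, ?_, ?_⟩
      · intro y hy
        rcases Finset.mem_insert.1 hy with h | h
        · rw [h]; exact hz
        · exact Zs_erase_le hi (hS1 y h)
      · intro y hy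
        have hy' : y - y i • z ∈ Zs (E.erase i) a b := by
          refine Zs_erase_mem hi ((Zs E a b).sub_mem hy ((Zs E a b).smul_mem _ hz)) ?_
          rw [Pi.sub_apply, Pi.smul_apply, smul_eq_mul, hzi1, mul_one, sub_self]
        have h1 : y - y i • z ∈ Submodule.span (ZMod 2)
            ((insert z S : Finset (ι → ZMod 2)) : Set (ι → ZMod 2)) := by
          refine Submodule.span_mono ?_ (hS2 hy')
          rw [Finset.coe_insert]
          exact Set.subset_insert _ _
        have h2 : y i • z ∈ Submodule.span (ZMod 2)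
            ((insert z S : Finset (ι → ZMod 2)) : Set (ι → ZMod 2)) := by
          refine Submodule.smul_mem _ _ (Submodule.subset_span ?_)
          rw [Finset.coe_insert]
          exact Set.mem_insert _ _
        have := Submodule.add_mem _ h1 h2
        rwa [sub_add_cancel] at this
      · rw [Finset.sum_insert hzS]
        have hA : ∑ m ∈ E, (if z m ≠ 0 then w m else 0) ≤ (2 * k : ℝ) * w i := by
          rw [← Finset.sum_filter]
          calc ∑ m ∈ E with z m ≠ 0, w m
              ≤ ∑ m ∈ E with z m ≠ 0, w i := Finset.sum_le_sum fun m hm => hmax m hm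
            _ = ((E.filter fun m => z m ≠ 0).card : ℝ) * w i := by
                rw [Finset.sum_const, nsmul_eq_mul]
            _ ≤ (2 * k : ℝ) * w i := by
                refine mul_le_mul_of_nonneg_right ?_ (hw i)
                exact_mod_cast hcz
        have hB : ∑ y ∈ S, ∑ m ∈ E, (if y m ≠ 0 then w m else 0) ≤
            (2 * k : ℝ) * ∑ m ∈ E.erase i, w m := by
          refine le_trans (le_of_eq ?_) hS3
          refine Finset.sum_congr rfl fun y hy => ?_
          exact wt_erase w hi (hzero y hy)
        rw [← Finset.add_sum_erase E w hi, mul_add]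
        exact add_le_add hA hB

end Pool.MP_35885f.LG
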