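import Pool.Agent.Lib.MP_35885f_lg.TStat
import Pool.Agent.Lib.MP_35885f_lg.WB

/-!
# Row CNT: a short cycle by counting
-/

open Finset

namespace Pool.MP_35885f.LG

open scoped Classical

variable {ι V : Type}

theorem Vx_a {a b : ι → V} {K : Finset ι} {i : ι} (hi : i ∈ K) : a i ∈ Vx a b K :=
  Finset.mem_union_left _ (Finset.mem_image_of_mem a hi)

theorem Vx_b {a b : ι → V} {K : Finset ι} {i : ι} (hi : i ∈ K) : b i ∈ Vx a b K :=
  Finset.mem_union_right _ (Finset.mem_image_of_mem b hi)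

theorem mem_Vx {a b : ι → V} {K : Finset ι} {v : V} :
    v ∈ Vx a b K ↔ ∃ i ∈ K, a i = v ∨ b i = v := by
  unfold Vx
  rw [Finset.mem_union, Finset.mem_image, Finset.mem_image]
  constructor
  · rintro (⟨i, hi, h⟩ | ⟨i, hi, h⟩)
    · exact ⟨i, hi, Or.inl h⟩
    · exact ⟨i, hi, Or.inr h⟩
  · rintro ⟨i, hi, h | h⟩
    · exact Or.inl ⟨i, hi, h⟩
    · exact Or.inr ⟨i, hi, h⟩

/-- restriction of the vertex set to the ends of the edges in `K` -/
noncomputable def subm (a b : ι → V) (K : Finset ι) (v0 : {v // v ∈ Vx a b K}) (f : ι → V) :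
    ι → {v // v ∈ Vx a b K} := fun i => if h : f i ∈ Vx a b K then ⟨f i, h⟩ else v0

theorem subm_a {a b : ι → V} {K : Finset ι} (v0 : {v // v ∈ Vx a b K}) {i : ι} (hi : i ∈ K) :
    subm a b K v0 a i = ⟨a i, Vx_a hi⟩ := dif_pos (Vx_a hi)

theorem subm_b {a b : ι → V} {K : Finset ι} (v0 : {v // v ∈ Vx a b K}) {i : ι} (hi : i ∈ K) :
    subm a b K v0 b i = ⟨b i, Vx_b hi⟩ := dif_pos (Vx_b hi)

theorem inc_sub {a b : ι → V} {K : Finset ι} (v0 : {v // v ∈ Vx a b K}) {i : ι} (hi : i ∈ K)
    (v : {v // v ∈ Vx a b K}) :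
    inc (subm a b K v0 a) (subm a b K v0 b) i v = inc a b i v.1 := by
  unfold inc
  rw [subm_a v0 hi, subm_b v0 hi]
  simp only [Subtype.ext_iff]

theorem inc_out {a b : ι → V} {K : Finset ι} {i : ι} (hi : i ∈ K) {v : V}
    (hv : v ∉ Vx a b K) : inc a b i v = 0 := by
  unfold inc
  have h1 : a i ≠ v := fun h => hv (by rw [← h]; exact Vx_a hi)
  have h2 : b i ≠ v := fun h => hv (by rw [← h]; exact Vx_b hi)
  rw [if_neg h1, if_neg h2, add_zero]

theorem Zs_sub {a b : ι → V} {K : Finset ι} (v0 : {v // v ∈ Vx a b K}) :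
    Zs K (subm a b K v0 a) (subm a b K v0 b) = Zs K a b := by
  ext f
  constructor
  · intro hf
    obtain ⟨h1, h2⟩ := Zs_mem.1 hf
    refine Zs_mem.2 ⟨h1, fun v => ?_⟩
    by_cases hv : v ∈ Vx a b K
    · rw [← h2 ⟨v, hv⟩]
      refine Finset.sum_congr rfl fun i hi => ?_
      rw [inc_sub v0 hi]
    · refine Finset.sum_eq_zero fun i hi => ?_
      rw [inc_out hi hv, mul_zero]
  · intro hf
    obtain ⟨h1, h2⟩ := Zs_mem.1 hf
    refine Zs_mem.2 ⟨h1, fun v => ?_⟩
    rw [← h2 v.1]
    refine Finset.sum_congr rfl fun i hi => ?_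
    rw [inc_sub v0 hi]

/-- Row WB for a bounded number of ends of edges. -/
theorem wbv (h : WB) {k : ℕ} (hk : 1 ≤ k) {K : Finset ι} {a b : ι → V}
    (hV : (Vx a b K).card ≤ 2 ^ k) (w : ι → ℝ) (hw : ∀ i, 0 ≤ w i) :
    ∃ S : Finset (ι → ZMod 2), (∀ z ∈ S, z ∈ Zs K a b) ∧
      Zs K a b ≤ Submodule.span (ZMod 2) (S : Set (ι → ZMod 2)) ∧
      ∑ z ∈ S, ∑ i ∈ K, (if z i ≠ 0 then w i else 0) ≤ (2 * k : ℝ) * ∑ i ∈ K, w i := by
  rcases K.eq_empty_or_nonempty with rfl | ⟨i₀, hi₀⟩
  · refine ⟨∅, by simp, ?_, by simp⟩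
    intro f hf
    have : f = 0 := funext fun i => (Zs_mem.1 hf).1 i (Finset.notMem_empty i)
    rw [this]
    exact Submodule.zero_mem _
  · have hc : Fintype.card {v // v ∈ Vx a b K} ≤ 2 ^ k := by
      rw [Fintype.card_coe]; exact hV
    obtain ⟨S, h1, h2, h3⟩ := h ι {v // v ∈ Vx a b K} k hk hc K
      (subm a b K ⟨a i₀, Vx_a hi₀⟩ a) (subm a b K ⟨a i₀, Vx_a hi₀⟩ b) w hw
    rw [Zs_sub] at h1 h2
    exact ⟨S, h1, h2, h3⟩

/-- dimension counting -/
theorem card_le_gen {K : Finset ι} {a b : ι → V} {S : Finset (ι → ZMod 2)}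
    (hS : Zs K a b ≤ Submodule.span (ZMod 2) (S : Set (ι → ZMod 2))) :
    K.card ≤ S.card + (Vx a b K).card := by
  set D : (K → ZMod 2) →ₗ[ZMod 2] ({v // v ∈ Vx a b K} → ZMod 2) :=
    { toFun := fun f v => ∑ i : K, f i * inc a b i.1 v.1
      map_add' := by
        intro f g
        funext v
        simp only [Pi.add_apply, add_mul, Finset.sum_add_distrib]
      map_smul' := by
        intro c f
        funext v
        simp only [Pi.smul_apply, smul_eq_mul, mul_assoc, ← Finset.mul_sum, RingHom.id_apply] }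
    with hD
  set ext : (K → ZMod 2) →ₗ[ZMod 2] (ι → ZMod 2) :=
    { toFun := fun f i => if h : i ∈ K then f ⟨i, h⟩ else 0
      map_add' := by
        intro f g
        funext i
        by_cases h : i ∈ K <;> simp [h]
      map_smul' := by
        intro c f
        funext i
        by_cases h : i ∈ K <;> simp [h] }
    with hext
  have hmem : ∀ f : LinearMap.ker D, ext f.1 ∈
      Submodule.span (ZMod 2) (S : Set (ι → ZMod 2)) := by
    intro f
    apply hS
    have hf : D f.1 = 0 := f.2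
    refine Zs_mem.2 ⟨fun i hi => dif_neg hi, fun v => ?_⟩
    by_cases hv : v ∈ Vx a b K
    · have h1 := congrFun hf ⟨v, hv⟩
      rw [← Finset.sum_coe_sort K]
      refine Eq.trans ?_ h1
      refine Finset.sum_congr rfl fun i _ => ?_
      have : ext f.1 i.1 = f.1 i := dif_pos i.2
      rw [this]
    · refine Finset.sum_eq_zero fun i hi => ?_
      rw [inc_out hi hv, mul_zero]
  set φ : LinearMap.ker D →ₗ[ZMod 2] Submodule.span (ZMod 2) (S : Set (ι → ZMod 2)) :=
    LinearMap.codRestrict _ (ext ∘ₗ (LinearMap.ker D).subtype) hmem with hφ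
  have hinj : Function.Injective φ := by
    intro f g hfg
    have h1 : ext f.1 = ext g.1 := congrArg Subtype.val hfg
    apply Subtype.ext
    funext i
    have h2 := congrFun h1 i.1
    have e1 : ext f.1 i.1 = f.1 i := dif_pos i.2
    have e2 : ext g.1 i.1 = g.1 i := dif_pos i.2
    rw [e1, e2] at h2
    exact h2
  have h1 : Module.finrank (ZMod 2) (LinearMap.ker D) ≤
      Module.finrank (ZMod 2) (Submodule.span (ZMod 2) (S : Set (ι → ZMod 2))) :=
    LinearMap.finrank_le_finrank_of_injective hinj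
  have h2 : Module.finrank (ZMod 2) (Submodule.span (ZMod 2) (S : Set (ι → ZMod 2))) ≤ S.card :=
    finrank_span_finset_le_card S
  have h3 := LinearMap.finrank_range_add_finrank_ker D
  have h4 : Module.finrank (ZMod 2) (LinearMap.range D) ≤ (Vx a b K).card := by
    refine (Submodule.finrank_le _).trans ?_
    rw [Module.finrank_fintype_fun_eq_card, Fintype.card_coe]
  rw [Module.finrank_fintype_fun_eq_card, Fintype.card_coe] at h3
  omega

/-- degree counting -/
theorem deg_count {K : Finset ι} {a b : ι → V} {B : Finset V}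
    (hdeg : ∀ i ∈ K, ∀ v, v ∉ B → (a i = v ∨ b i = v) →
      3 ≤ (K.filter fun j => a j = v ∨ b j = v).card) :
    3 * (Vx a b K).card ≤ 2 * K.card + 3 * B.card := by
  have h1 : ∑ v ∈ Vx a b K, (K.filter fun j => a j = v ∨ b j = v).card ≤ 2 * K.card := by
    simp only [Finset.card_filter]
    rw [Finset.sum_comm, mul_comm, ← smul_eq_mul, ← Finset.sum_const]
    refine Finset.sum_le_sum fun j hj => ?_
    rw [← Finset.card_filter]
    refine (Finset.card_le_card (t := {a j, b j}) ?_).trans Finset.card_le_two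
    intro v hv
    rw [Finset.mem_filter] at hv
    rw [Finset.mem_insert, Finset.mem_singleton]
    rcases hv.2 with h | h
    · exact Or.inl h.symm
    · exact Or.inr h.symm
  have h2 : 3 * (Vx a b K \ B).card ≤ ∑ v ∈ Vx a b K, (K.filter fun j => a j = v ∨ b j = v).card := by
    calc 3 * (Vx a b K \ B).card = ∑ v ∈ Vx a b K \ B, 3 := by
          rw [Finset.sum_const, smul_eq_mul, mul_comm]
      _ ≤ ∑ v ∈ Vx a b K \ B, (K.filter fun j => a j = v ∨ b j = v).card := by
          refine Finset.sum_le_sum fun v hv => ?_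
          obtain ⟨hv1, hv2⟩ := Finset.mem_sdiff.1 hv
          obtain ⟨i, hi, h⟩ := mem_Vx.1 hv1
          exact hdeg i hi v hv2 h
      _ ≤ _ := Finset.sum_le_sum_of_subset Finset.sdiff_subset
  have h3 : (Vx a b K).card ≤ (Vx a b K \ B).card + B.card := by
    have := Finset.card_le_card (show Vx a b K ⊆ (Vx a b K \ B) ∪ B by
      intro v hv
      by_cases h : v ∈ B
      · exact Finset.mem_union_right _ h
      · exact Finset.mem_union_left _ (Finset.mem_sdiff.2 ⟨hv, h⟩))
    exact this.trans (Finset.card_union_le _ _)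
  omega

theorem cnt (hWB : WB) : CNT := by
  intro ι V K a b κ t hκ ht hV1 hV2 _ B hB hdeg
  obtain ⟨S, hS1, hS2, hS3⟩ := wbv hWB hκ hV2 (fun _ => (1 : ℝ)) (fun _ => zero_le_one)
  have hd := deg_count hdeg
  -- remove the zero vector
  set S' := S.erase 0 with hS'
  have hspan : Zs K a b ≤ Submodule.span (ZMod 2) (S' : Set (ι → ZMod 2)) := by
    refine hS2.trans ?_
    rw [Submodule.span_le]
    intro z hz
    by_cases h0 : z = 0
    · rw [h0]; exact Submodule.zero_mem _
    · exact Submodule.subset_span (Finset.mem_coe.2 (Finset.mem_erase.2 ⟨h0, hz⟩))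
  have hcard := card_le_gen hspan
  have hsum : ∑ z ∈ S', (K.filter fun i => z i ≠ 0).card ≤ 2 * κ * K.card := by
    have h1 : ∑ z ∈ S, ((K.filter fun i => z i ≠ 0).card : ℝ) ≤ (2 * κ : ℝ) * K.card := by
      refine le_trans (le_of_eq ?_) (hS3.trans (le_of_eq ?_))
      · refine Finset.sum_congr rfl fun z _ => ?_
        rw [Finset.sum_boole]
      · simp
    have h2 : ∑ z ∈ S, (K.filter fun i => z i ≠ 0).card ≤ 2 * κ * K.card := by
      exact_mod_cast h1
    exact (Finset.sum_le_sum_of_subset (Finset.erase_subset _ _)).trans h2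
  have hKn : 11 * (Vx a b K).card ≤ 8 * K.card := by omega
  have hVpos : 0 < (Vx a b K).card := by omega
  have hS'pos : S'.Nonempty := by
    rw [← Finset.card_pos]
    omega
  obtain ⟨z, hz, hmin⟩ := Finset.exists_min_image S' (fun z => (K.filter fun i => z i ≠ 0).card)
    hS'pos
  obtain ⟨hz0, hzS⟩ := Finset.mem_erase.1 hz
  have hzZ := hS1 z hzS
  refine ⟨z, hzZ, ?_, ?_⟩
  · by_contra h
    push Not at h
    apply hz0
    funext i
    by_cases hi : i ∈ K
    · exact h i hi
    · exact (Zs_mem.1 hzZ).1 i hi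
  · set c := (K.filter fun i => z i ≠ 0).card with hc
    have h1 : S'.card * c ≤ 2 * κ * K.card := by
      refine le_trans ?_ hsum
      rw [← smul_eq_mul, ← Finset.sum_const]
      exact Finset.sum_le_sum fun y hy => hmin y hy
    have h2 : 3 * K.card ≤ 11 * S'.card := by omega
    have h3 : 0 < K.card := by omega
    have h4 : K.card * (3 * c) ≤ K.card * (22 * κ) := by
      calc K.card * (3 * c) = (3 * K.card) * c := by ring
        _ ≤ (11 * S'.card) * c := Nat.mul_le_mul_right _ h2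
        _ = 11 * (S'.card * c) := by ring
        _ ≤ 11 * (2 * κ * K.card) := Nat.mul_le_mul_left _ h1
        _ = K.card * (22 * κ) := by ring
    have h5 := Nat.le_of_mul_le_mul_left h4 h3
    omega

end Pool.MP_35885f.LG
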