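import Pool.Agent.Lib.MP_35885f_lg.Stat

/-!
# Row EXC: symmetric exchange of bases
-/

open Finset Submodule

namespace Pool.MP_35885f.LG

open scoped Classical

lemma exc_basis {K M : Type} [Field K] [AddCommGroup M] [Module K M] (W : Submodule K M)
    (B₁ B₂ : Finset M)
    (h1 : LinearIndepOn K id (B₁ : Set M)) (h1s : span K (B₁ : Set M) = W)
    (h2 : LinearIndepOn K id (B₂ : Set M)) (h2s : span K (B₂ : Set M) = W)
    (c : M) (hc1 : c ∈ B₁) (hc2 : c ∉ B₂) :
    ∃ c' ∈ B₂ \ B₁,
      (LinearIndepOn K id ((insert c' (B₁.erase c) : Finset M) : Set M) ∧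
        span K ((insert c' (B₁.erase c) : Finset M) : Set M) = W) ∧
      (LinearIndepOn K id ((insert c (B₂.erase c') : Finset M) : Set M) ∧
        span K ((insert c (B₂.erase c') : Finset M) : Set M) = W) := by
  have key : ∀ (B : Finset M), LinearIndepOn K id (B : Set M) → ∀ x ∈ B,
      x ∉ span K ((B.erase x : Finset M) : Set M) := by
    intro B hB x hx hmem
    have h := hB.notMem_span (i := x) (by exact_mod_cast hx)
    rw [coe_erase] at hmem
    exact h (by simpa using hmem)
  have ins : ∀ (B : Finset M) (x y : M), LinearIndepOn K id (B : Set M) →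
      span K (B : Set M) = W → x ∈ B → y ∈ W →
      y ∉ span K ((B.erase x : Finset M) : Set M) →
      (LinearIndepOn K id ((insert y (B.erase x) : Finset M) : Set M) ∧
        span K ((insert y (B.erase x) : Finset M) : Set M) = W) := by
    intro B x y hB hBs hx hy hyn
    refine ⟨?_, le_antisymm ?_ ?_⟩
    · rw [coe_insert]
      have h3 : LinearIndepOn K id ((B.erase x : Finset M) : Set M) :=
        hB.mono (by exact_mod_cast erase_subset x B)
      exact h3.insert (by simpa using hyn)
    · rw [span_le, ← hBs]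
      intro z hz
      rw [coe_insert, Set.mem_insert_iff] at hz
      rcases hz with rfl | hz
      · rw [hBs]; exact hy
      · exact subset_span (by exact_mod_cast mem_of_mem_erase (by exact_mod_cast hz))
    · rw [← hBs, span_le]
      have hxin : x ∈ span K ((insert y (B.erase x) : Finset M) : Set M) := by
        rw [coe_insert]
        refine mem_span_insert_exchange ?_ hyn
        have : insert x ((B.erase x : Finset M) : Set M) = (B : Set M) := by
          rw [← coe_insert, insert_erase hx]
        rw [this, hBs]; exact hy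
      intro z hz
      by_cases hzx : z = x
      · rw [hzx]; exact hxin
      · refine subset_span ?_
        rw [coe_insert]
        exact Or.inr (by exact_mod_cast mem_erase.2 ⟨hzx, by exact_mod_cast hz⟩)
  have hcW : c ∈ W := by rw [← h1s]; exact subset_span (by exact_mod_cast hc1)
  have hcn := key B₁ h1 c hc1
  have hc2' : c ∈ span K (B₂ : Set M) := by rw [h2s]; exact hcW
  obtain ⟨a, -, ha⟩ := mem_span_finset.1 hc2'
  obtain ⟨c', hc', ha', hn⟩ : ∃ z ∈ B₂, a z ≠ 0 ∧
      z ∉ span K ((B₁.erase c : Finset M) : Set M) := by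
    by_contra hcon
    push Not at hcon
    have hs : ∑ z ∈ B₂, a z • z ∈ span K ((B₁.erase c : Finset M) : Set M) := by
      refine Submodule.sum_mem _ fun z hz => ?_
      by_cases hz0 : a z = 0
      · rw [hz0, zero_smul]; exact zero_mem _
      · exact smul_mem _ _ (hcon z hz hz0)
    rw [ha] at hs
    exact hcn hs
  have hc'1 : c' ∉ B₁ := by
    intro hmem
    by_cases hcc : c' = c
    · exact hc2 (hcc ▸ hc')
    · exact hn (subset_span (by exact_mod_cast mem_erase.2 ⟨hcc, hmem⟩))
  have hc'W : c' ∈ W := by rw [← h2s]; exact subset_span (by exact_mod_cast hc')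
  refine ⟨c', mem_sdiff.2 ⟨hc', hc'1⟩, ins B₁ c c' h1 h1s hc1 hc'W hn,
    ins B₂ c' c h2 h2s hc' hcW ?_⟩
  intro hmem
  refine key B₂ h2 c' hc' ?_
  have hsum : a c' • c' + ∑ z ∈ B₂.erase c', a z • z = c := by
    rw [← ha]; exact add_sum_erase B₂ (fun z => a z • z) hc'
  have h3 : a c' • c' ∈ span K ((B₂.erase c' : Finset M) : Set M) := by
    have h4 : a c' • c' = c - ∑ z ∈ B₂.erase c', a z • z := by rw [← hsum]; abel
    rw [h4]
    exact sub_mem hmem (Submodule.sum_mem _ fun z hz =>
      smul_mem _ _ (subset_span (by exact_mod_cast hz)))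
  exact (smul_mem_iff _ ha').1 h3

lemma exch_gen {K M : Type} [Field K] [AddCommGroup M] [Module K M] (W : Submodule K M) :
    Exch fun B : Finset M => LinearIndepOn K id (B : Set M) ∧ span K (B : Set M) = W := by
  intro B₁ B₂ hB₁ hB₂ c hc
  rw [mem_sdiff] at hc
  exact exc_basis W B₁ B₂ hB₁.1 hB₁.2 hB₂.1 hB₂.2 c hc.1 hc.2

/-- Row EXC. -/
theorem exc : EXC := by
  intro V _ G
  exact exch_gen (K := ZMod 2) (cycleSpace G)

end Pool.MP_35885f.LG
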