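import Pool.Agent.Lib.MP_35885f_lg.Stat

/-!
# Row FIN: from the cheap cycle bases to the bound `5 log₂ n`
-/

open Finset

namespace Pool.MP_35885f.LG

open scoped Classical

lemma edge_card {V : Type} [Fintype V] (G : SimpleGraph V) (k : ℕ)
    (hV : Fintype.card V ≤ 2 ^ k) : Fintype.card {e : Sym2 V // e ∈ G.edgeSet} ≤ 4 ^ k := by
  have h1 : Fintype.card {e : Sym2 V // e ∈ G.edgeSet} = G.edgeFinset.card := by
    rw [Fintype.card_subtype]
    congr 1
    ext e
    simp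
  rw [h1]
  calc G.edgeFinset.card ≤ (Fintype.card V).choose 2 := G.card_edgeFinset_le_card_choose_two
    _ ≤ Fintype.card V ^ 2 := Nat.choose_le_pow _ _
    _ ≤ (2 ^ k) ^ 2 := Nat.pow_le_pow_left hV 2
    _ = 4 ^ k := by rw [← pow_mul, mul_comm, pow_mul]; norm_num

lemma sum_edges {V : Type} [Fintype V] (G : SimpleGraph V)
    (w : {e : Sym2 V // e ∈ G.edgeSet} → ℝ) (g : Sym2 V → ℝ) :
    ∑ e with e ∈ G.edgeSet, (if h : e ∈ G.edgeSet then w ⟨e, h⟩ else 0) * g e =
      ∑ e : {e : Sym2 V // e ∈ G.edgeSet}, w e * g e.1 := by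
  rw [Finset.sum_subtype (p := fun e => e ∈ G.edgeSet) _ (fun x => by simp)]
  refine Finset.sum_congr rfl fun e _ => ?_
  rw [dif_pos e.2]

lemma exp_le (k : ℕ) : Real.exp (2 * k : ℝ) ≤ 8 ^ k := by
  have h1 : Real.exp 2 ≤ 8 := by
    have h2 : Real.exp 2 = Real.exp 1 * Real.exp 1 := by
      rw [← Real.exp_add]; norm_num
    rw [h2]
    nlinarith [Real.exp_one_lt_d9, Real.exp_pos 1]
  have h3 : Real.exp (2 * k : ℝ) = Real.exp 2 ^ k := by
    rw [← Real.exp_nat_mul]; ring_nf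
  rw [h3]
  exact pow_le_pow_left₀ (Real.exp_pos 2).le h1 k

/-- The expected load is the sum of the coordinates. -/
lemma load_swap {Ω E : Type} [Fintype Ω] (r : Ω → E → Prop) (p : Finset Ω → ℝ) (e : E) :
    ∑ z with r z e, ∑ B with z ∈ B, p B = ∑ B, p B * ((B.filter fun z => r z e).card : ℝ) := by
  rw [Finset.sum_comm' (t' := univ) (s' := fun B => B.filter fun z => r z e)]
  · refine Finset.sum_congr rfl fun B _ => ?_
    rw [Finset.sum_const, nsmul_eq_mul, mul_comm]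
  · intro x y
    simp [and_comm]

/-- The use of the rounding: all loads of the base `B` are small. -/
lemma swp_use (hS : SWP) {Ω E : Type} [Fintype Ω] [Fintype E] (r : Ω → E → Prop)
    (Bs : Finset Ω → Prop) (hE : Exch Bs) (p : Finset Ω → ℝ) (hp0 : ∀ B, 0 ≤ p B)
    (hpP : ∀ B, p B ≠ 0 → Bs B) (hp1 : ∑ B, p B = 1) (L : ℝ)
    (hL : ∀ e, ∑ B, p B * ((B.filter fun z => r z e).card : ℝ) ≤ L) :
    ∃ B, Bs B ∧ ∀ e, (2 : ℝ) ^ (B.filter fun z => r z e).card ≤
      (Fintype.card E : ℝ) * Real.exp L := by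
  obtain ⟨B, hB, hsum⟩ := hS Ω E r Bs hE p hp0 hpP hp1
  have key : ∀ e : E, ∏ z with r z e, (1 + ∑ B with z ∈ B, p B) ≤ Real.exp L := by
    intro e
    have hx : ∀ z : Ω, 0 ≤ ∑ B with z ∈ B, p B :=
      fun z => Finset.sum_nonneg fun B _ => hp0 B
    calc ∏ z with r z e, (1 + ∑ B with z ∈ B, p B)
        ≤ ∏ z with r z e, Real.exp (∑ B with z ∈ B, p B) := by
          refine Finset.prod_le_prod (fun z _ => by linarith [hx z]) fun z _ => ?_
          rw [add_comm]
          exact Real.add_one_le_exp _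
      _ = Real.exp (∑ z with r z e, ∑ B with z ∈ B, p B) := by
          rw [Real.exp_sum]
      _ ≤ Real.exp L := by
          rw [load_swap]
          exact Real.exp_le_exp.2 (hL e)
  refine ⟨B, hB, fun e => ?_⟩
  calc (2 : ℝ) ^ (B.filter fun z => r z e).card
      ≤ ∑ e, (2 : ℝ) ^ (B.filter fun z => r z e).card :=
        Finset.single_le_sum (f := fun e => (2 : ℝ) ^ (B.filter fun z => r z e).card)
          (fun _ _ => by positivity) (Finset.mem_univ e)
    _ ≤ ∑ e, ∏ z with r z e, (1 + ∑ B with z ∈ B, p B) := hsum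
    _ ≤ ∑ _e : E, Real.exp L := Finset.sum_le_sum fun e _ => key e
    _ = (Fintype.card E : ℝ) * Real.exp L := by
        rw [Finset.sum_const, Finset.card_univ, nsmul_eq_mul]

lemma ply_eq {V : Type} (e : Sym2 V) (B : Finset (Sym2 V → ZMod 2)) (r : (Sym2 V → ZMod 2) → Prop)
    (hr : ∀ z, r z ↔ z e ≠ 0) : (B.filter fun z => r z).card = ply e B := by
  unfold ply
  congr 1
  ext z
  simp only [Finset.mem_filter, hr]

theorem fin : FIN := by
  intro hW hM hS hE V _ G
  set k := Nat.clog 2 (Fintype.card V) with hk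
  have hVk : Fintype.card V ≤ 2 ^ k := Nat.le_pow_clog (by norm_num) _
  rcases Nat.eq_zero_or_pos k with h0 | h1
  · have hc : Fintype.card V ≤ 1 := by simpa [h0] using hVk
    obtain ⟨B, hB, -⟩ := hW V G 1 le_rfl (by omega) (fun _ => 0) (fun _ => le_rfl)
    refine Nat.sInf_le ⟨B, hB, fun e he => ?_⟩
    exfalso
    induction e using Sym2.ind with
    | _ x y =>
      exact (G.mem_edgeSet.1 he).ne (Fintype.card_le_one_iff.1 hc x y)
  obtain ⟨p, hp0, hpP, hp1, hpL⟩ := hM {e : Sym2 V // e ∈ G.edgeSet}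
    (Finset (Sym2 V → ZMod 2)) (fun B => IsCycleBasis G B) (fun B e => (ply e.1 B : ℝ))
    (2 * k : ℝ) (fun w hw => by
      obtain ⟨B, hB, hBw⟩ := hW V G k h1 hVk
        (fun e => if h : e ∈ G.edgeSet then w ⟨e, h⟩ else 0)
        (fun e => by split_ifs with h; exacts [hw _, le_rfl])
      refine ⟨B, hB, ?_⟩
      have q1 := sum_edges G w fun e => (ply e B : ℝ)
      have q2 := sum_edges G w fun _ => 1
      simp only [mul_one] at q2
      rw [q1, q2] at hBw
      exact hBw)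
  obtain ⟨B, hB, hpl⟩ := swp_use hS (E := {e : Sym2 V // e ∈ G.edgeSet})
    (fun (z : Sym2 V → ZMod 2) e => z e.1 ≠ 0) (fun B => IsCycleBasis G B) (hE V G) p hp0 hpP hp1
    (2 * k : ℝ) (fun e => by
      refine le_of_eq_of_le (Finset.sum_congr rfl fun B _ => ?_) (hpL e)
      rw [ply_eq e.1 B _ fun z => Iff.rfl])
  refine Nat.sInf_le ⟨B, hB, fun e he => ?_⟩
  have h3 := hpl ⟨e, he⟩
  rw [ply_eq e B _ fun z => Iff.rfl] at h3
  have h2 : (2 : ℝ) ^ ply e B ≤ 2 ^ (5 * k) := by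
    calc (2 : ℝ) ^ ply e B
        ≤ (Fintype.card {e : Sym2 V // e ∈ G.edgeSet} : ℝ) * Real.exp (2 * k : ℝ) := h3
      _ ≤ (4 : ℝ) ^ k * 8 ^ k := by
          refine mul_le_mul ?_ (exp_le k) (Real.exp_pos _).le (by positivity)
          exact_mod_cast edge_card G k hVk
      _ = 2 ^ (5 * k) := by
          rw [← mul_pow, pow_mul]; norm_num
  exact (pow_le_pow_iff_right₀ (by norm_num : (1 : ℝ) < 2)).1 h2

end Pool.MP_35885f.LG
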