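import Pool.Agent.Lib.MP_35885f_lg.Stat

open Finset

namespace Pool.MP_35885f.LG

open scoped Classical symmDiff

namespace Gir

variable {ι V : Type} (a b : ι → V)

noncomputable def bd (z : Finset ι) (v : V) : ZMod 2 := ∑ i ∈ z, inc a b i v

noncomputable def dl (x y : V) : ZMod 2 := if x = y then 1 else 0

lemma two (x : ZMod 2) : x + x = 0 := CharTwo.add_self_eq_zero x

lemma bd_symmDiff (z z' : Finset ι) (v : V) :
    bd a b (z ∆ z') v = bd a b z v + bd a b z' v := by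
  unfold bd
  have h1 : ∑ i ∈ z, inc a b i v = ∑ i ∈ z \ z', inc a b i v + ∑ i ∈ z ∩ z', inc a b i v := by
    rw [← Finset.sum_union (disjoint_sdiff_inter z z'), sdiff_union_inter]
  have h2 : ∑ i ∈ z', inc a b i v = ∑ i ∈ z' \ z, inc a b i v + ∑ i ∈ z ∩ z', inc a b i v := by
    rw [inter_comm, ← Finset.sum_union (disjoint_sdiff_inter z' z), sdiff_union_inter]
  have h3 : ∑ i ∈ z ∆ z', inc a b i v = ∑ i ∈ z \ z', inc a b i v + ∑ i ∈ z' \ z, inc a b i v := by
    rw [symmDiff_def, sup_eq_union, Finset.sum_union]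
    rw [Finset.disjoint_left]
    intro x hx hx'
    rw [mem_sdiff] at hx hx'
    exact hx'.2 hx.1
  rw [h1, h2, h3]
  have := two (∑ i ∈ z ∩ z', inc a b i v)
  linear_combination -this

/-- `e` is an edge between `v` and `u`. -/
def At (e : ι) (v u : V) : Prop := v ≠ u ∧ ((a e = v ∧ b e = u) ∨ (a e = u ∧ b e = v))

lemma inc_at {e : ι} {v u : V} (h : At a b e v u) (x : V) : inc a b e x = dl v x + dl u x := by
  obtain ⟨-, ⟨h1, h2⟩ | ⟨h1, h2⟩⟩ := h
  · simp [inc, dl, h1, h2]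
  · simp [inc, dl, h1, h2, add_comm]

lemma at_symm {e : ι} {v u : V} (h : At a b e v u) : At a b e u v :=
  ⟨h.1.symm, h.2.symm⟩

lemma bd_single (e : ι) (x : V) : bd a b {e} x = inc a b e x := by simp [bd]

variable (E : Finset ι) (v0 : V)

def J (P : Finset ι) (v : V) : Prop := P ⊆ E ∧ ∀ x, bd a b P x = dl v0 x + dl v x

variable {a b E v0}

lemma J_toggle {P : Finset ι} {v u : V} {e : ι} (h : J a b E v0 P v) (he : e ∈ E)
    (hat : At a b e v u) : J a b E v0 (P ∆ {e}) u := by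
  refine ⟨?_, fun x => ?_⟩
  · intro i hi
    rw [mem_symmDiff, mem_singleton] at hi
    rcases hi with ⟨h1, -⟩ | ⟨h1, -⟩
    · exact h.1 h1
    · exact h1 ▸ he
  · rw [bd_symmDiff, h.2 x, bd_single, inc_at a b hat]
    have := two (dl v x)
    linear_combination this

lemma toggle_mem {P : Finset ι} {e : ι} (h : e ∈ P) : P ∆ {e} = P.erase e := by
  ext i; rw [mem_symmDiff, mem_singleton, mem_erase]
  constructor
  · rintro (⟨h1, h2⟩ | ⟨h1, h2⟩)
    · exact ⟨h2, h1⟩
    · exact absurd (h1 ▸ h) h2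
  · rintro ⟨h1, h2⟩; exact Or.inl ⟨h2, h1⟩

lemma toggle_card_le (P : Finset ι) (e : ι) : (P ∆ {e}).card ≤ P.card + 1 := by
  refine (card_le_card (t := insert e P) ?_).trans (card_insert_le _ _)
  intro i hi
  rw [mem_symmDiff, mem_singleton] at hi
  rw [mem_insert]; tauto

variable (a b E v0)

def Lv (j : ℕ) (v : V) : Prop :=
  (∃ P, J a b E v0 P v ∧ P.card = j) ∧ ∀ P, J a b E v0 P v → j ≤ P.card

variable {a b E v0}

lemma Lv_unique {j j' : ℕ} {v : V} (h : Lv a b E v0 j v) (h' : Lv a b E v0 j' v) : j = j' := by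
  obtain ⟨⟨P, hP, hc⟩, hm⟩ := h
  obtain ⟨⟨P', hP', hc'⟩, hm'⟩ := h'
  have := hm _ hP'
  have := hm' _ hP
  omega

lemma exists_Lv {P : Finset ι} {v : V} (h : J a b E v0 P v) :
    ∃ j, j ≤ P.card ∧ Lv a b E v0 j v := by
  have hex : ∃ j, ∃ P, J a b E v0 P v ∧ P.card = j := ⟨_, P, h, rfl⟩
  refine ⟨Nat.find hex, Nat.find_min' hex ⟨P, h, rfl⟩, Nat.find_spec hex, ?_⟩
  intro P' hP'
  exact Nat.find_min' hex ⟨P', hP', rfl⟩

lemma step {P : Finset ι} {v u : V} {e : ι} {j : ℕ} (h : J a b E v0 P v) (hc : P.card = j + 1)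
    (hm : ∀ P', J a b E v0 P' v → j + 1 ≤ P'.card) (he : e ∈ P) (hat : At a b e v u) :
    J a b E v0 (P.erase e) u ∧ Lv a b E v0 j u := by
  have h1 : J a b E v0 (P.erase e) u := by
    rw [← toggle_mem he]; exact J_toggle h (h.1 he) hat
  refine ⟨h1, ⟨P.erase e, h1, by rw [card_erase_of_mem he, hc]; rfl⟩, ?_⟩
  intro P' hP'
  have h2 := hm _ (J_toggle hP' (h.1 he) (at_symm a b hat))
  have h3 := toggle_card_le P' e
  omega

lemma exists_edge {P : Finset ι} {v : V} (h : J a b E v0 P v) (hv : v ≠ v0) :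
    ∃ e ∈ P, ∃ u, At a b e v u := by
  have h1 : bd a b P v ≠ 0 := by
    rw [h.2 v]
    simp [dl, hv.symm]
  obtain ⟨e, he, hne⟩ := Finset.exists_ne_zero_of_sum_ne_zero h1
  refine ⟨e, he, ?_⟩
  unfold inc at hne
  by_cases h2 : a e = v
  · by_cases h3 : b e = v
    · rw [if_pos h2, if_pos h3] at hne
      exact absurd (two 1) hne
    · exact ⟨b e, fun h => h3 h.symm, Or.inl ⟨h2, rfl⟩⟩
  · by_cases h3 : b e = v
    · exact ⟨a e, fun h => h2 h.symm, Or.inr ⟨rfl, h3⟩⟩
    · rw [if_neg h2, if_neg h3] at hne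
      exact absurd (add_zero 0) hne

lemma ne_root {P : Finset ι} {v : V} {j : ℕ}
    (hm : ∀ P', J a b E v0 P' v → j + 1 ≤ P'.card) : v ≠ v0 := by
  rintro rfl
  have : J a b E v ∅ v := ⟨empty_subset _, fun x => by rw [two]; simp [bd]⟩
  have := hm _ this
  simp at this

lemma ends_le (j : ℕ) : ∀ (v : V) (P : Finset ι), J a b E v0 P v → P.card = j →
    (∀ P', J a b E v0 P' v → j ≤ P'.card) → ∀ f ∈ P, ∀ x, (a f = x ∨ b f = x) →
    ∃ j', j' ≤ j ∧ Lv a b E v0 j' x := by
  induction j with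
  | zero =>
    intro v P _ hc _ f hf
    rw [card_eq_zero.1 hc] at hf
    exact absurd hf (notMem_empty f)
  | succ j ih =>
    intro v P hJ hc hm f hf x hx
    obtain ⟨e, he, u, hat⟩ := exists_edge hJ (ne_root (P := P) hm)
    obtain ⟨h1, h2⟩ := step hJ hc hm he hat
    by_cases hfe : f = e
    · subst hfe
      obtain ⟨-, ⟨h3, h4⟩ | ⟨h3, h4⟩⟩ := hat
      · rcases hx with hx | hx
        · exact ⟨j + 1, le_rfl, ⟨P, by rw [← hx, h3]; exact hJ, hc⟩, by rw [← hx, h3]; exact hm⟩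
        · exact ⟨j, by omega, by rw [← hx, h4]; exact h2⟩
      · rcases hx with hx | hx
        · exact ⟨j, by omega, by rw [← hx, h3]; exact h2⟩
        · exact ⟨j + 1, le_rfl, ⟨P, by rw [← hx, h4]; exact hJ, hc⟩, by rw [← hx, h4]; exact hm⟩
    · obtain ⟨j', hj', h3⟩ := ih u (P.erase e) h1 (by rw [card_erase_of_mem he, hc]; rfl) h2.2 f
        (mem_erase.2 ⟨hfe, hf⟩) x hx
      exact ⟨j', by omega, h3⟩

variable {k : ℕ} (H : ∀ z ⊆ E, z.Nonempty → (∀ v, bd a b z v = 0) → 2 * k < z.card)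

include H

/-- Two small even sets cannot differ. -/
lemma eq_of_small {P Q : Finset ι} (hP : P ⊆ E) (hQ : Q ⊆ E)
    (hb : ∀ v, bd a b P v = bd a b Q v) (hc : P.card + Q.card ≤ 2 * k) : P = Q := by
  by_contra hne
  have h1 : (P ∆ Q).Nonempty := by
    rw [Finset.nonempty_iff_ne_empty]
    intro h
    exact hne (symmDiff_eq_bot.1 h)
  have h2 : P ∆ Q ⊆ E := by
    intro i hi
    rw [mem_symmDiff] at hi
    rcases hi with ⟨h, -⟩ | ⟨h, -⟩
    · exact hP h
    · exact hQ h
  have h3 := H _ h2 h1 (fun v => by rw [bd_symmDiff, hb v, two])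
  have h4 : (P ∆ Q).card ≤ P.card + Q.card := by
    refine (card_le_card (t := P ∪ Q) ?_).trans (card_union_le _ _)
    intro i hi
    rw [mem_symmDiff] at hi
    rw [mem_union]; tauto
  omega

/-- An edge which does not lead to a new level lies in every minimal join. -/
lemma mem_of_low {P : Finset ι} {v u : V} {e : ι} {j j' : ℕ} (hJ : J a b E v0 P v)
    (hc : P.card = j) (he : e ∈ E) (hat : At a b e v u) (hu : Lv a b E v0 j' u) (hj : j' ≤ j)
    (hk : j + 1 ≤ k) : e ∈ P := by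
  by_contra hnot
  obtain ⟨⟨Q, hQ, hQc⟩, -⟩ := hu
  have h1 := J_toggle hJ he hat
  have h2 : (P ∆ {e}).card = j + 1 := by
    have : P ∆ {e} = insert e P := by
      ext i; rw [mem_symmDiff, mem_singleton, mem_insert]
      constructor
      · rintro (⟨h, -⟩ | ⟨h, -⟩)
        · exact Or.inr h
        · exact Or.inl h
      · rintro (h | h)
        · exact Or.inr ⟨h, h ▸ hnot⟩
        · exact Or.inl ⟨h, fun h' => hnot (h' ▸ h)⟩
    rw [this, card_insert_of_notMem hnot, hc]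
  have h3 : P ∆ {e} = Q := eq_of_small H h1.1 hQ.1 (fun v => by rw [h1.2 v, hQ.2 v]) (by omega)
  rw [h3] at h2
  omega

/-- At most one edge at `v` leads to the same or a lower level. -/
lemma low_unique {v u₁ u₂ : V} {e₁ e₂ : ι} {j j₁ j₂ : ℕ} (hv : Lv a b E v0 j v)
    (he₁ : e₁ ∈ E) (hat₁ : At a b e₁ v u₁) (hu₁ : Lv a b E v0 j₁ u₁) (hj₁ : j₁ ≤ j)
    (he₂ : e₂ ∈ E) (hat₂ : At a b e₂ v u₂) (hu₂ : Lv a b E v0 j₂ u₂) (hj₂ : j₂ ≤ j)
    (hk : j + 1 ≤ k) : 1 ≤ j ∧ e₁ = e₂ := by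
  obtain ⟨⟨P, hJ, hc⟩, hm⟩ := hv
  have m1 := mem_of_low H hJ hc he₁ hat₁ hu₁ hj₁ hk
  have m2 := mem_of_low H hJ hc he₂ hat₂ hu₂ hj₂ hk
  have hj0 : 1 ≤ j := by
    rw [← hc]; exact Finset.card_pos.2 ⟨_, m1⟩
  refine ⟨hj0, ?_⟩
  by_contra hne
  obtain ⟨i, rfl⟩ : ∃ i, j = i + 1 := ⟨j - 1, by omega⟩
  obtain ⟨h1, h2⟩ := step hJ hc hm m1 hat₁
  have hx : a e₂ = v ∨ b e₂ = v := by
    obtain ⟨-, ⟨h, -⟩ | ⟨-, h⟩⟩ := hat₂
    · exact Or.inl h
    · exact Or.inr h
  obtain ⟨j', hj', h3⟩ := ends_le i u₁ (P.erase e₁) h1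
    (by rw [card_erase_of_mem m1, hc]; rfl) h2.2 e₂ (mem_erase.2 ⟨fun h => hne h.symm, m2⟩) v hx
  have := Lv_unique h3 ⟨⟨P, hJ, hc⟩, hm⟩
  omega

/-- Edges to the next level have different upper ends. -/
lemma up_inj {v v' u : V} {e e' : ι} {j : ℕ} (hv : Lv a b E v0 j v) (hv' : Lv a b E v0 j v')
    (he : e ∈ E) (he' : e' ∈ E) (hat : At a b e v u) (hat' : At a b e' v' u)
    (hu : Lv a b E v0 (j + 1) u) (hk : j + 1 ≤ k) : e = e' ∧ v = v' := by
  obtain ⟨⟨P, hJ, hc⟩, hm⟩ := hv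
  obtain ⟨⟨P', hJ', hc'⟩, hm'⟩ := hv'
  have notin : ∀ {P : Finset ι} {v : V}, J a b E v0 P v → P.card = j →
      (∀ P', J a b E v0 P' v → j ≤ P'.card) → ∀ f ∈ P, ¬ (a f = u ∨ b f = u) := by
    intro P v hJ hc hm f hf hx
    obtain ⟨j', hj', h3⟩ := ends_le j v P hJ hc hm f hf u hx
    have := Lv_unique h3 hu
    omega
  have hend : ∀ {e : ι} {v : V}, At a b e v u → (a e = u ∨ b e = u) := by
    intro e v h
    obtain ⟨-, ⟨-, h⟩ | ⟨h, -⟩⟩ := h
    · exact Or.inr h
    · exact Or.inl h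
  have h1 := J_toggle hJ he hat
  have h2 := J_toggle hJ' he' hat'
  have c1 := toggle_card_le P e
  have c2 := toggle_card_le P' e'
  have h3 : P ∆ {e} = P' ∆ {e'} :=
    eq_of_small H h1.1 h2.1 (fun v => by rw [h1.2 v, h2.2 v]) (by omega)
  have heP : e ∉ P := fun h => notin hJ hc hm e h (hend hat)
  have hee : e = e' := by
    by_contra hne
    have : e ∈ P' ∆ {e'} := by
      rw [← h3, mem_symmDiff, mem_singleton]; exact Or.inr ⟨rfl, heP⟩
    rw [mem_symmDiff, mem_singleton] at this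
    rcases this with ⟨h, -⟩ | ⟨h, -⟩
    · exact notin hJ' hc' hm' e h (hend hat)
    · exact hne h
  refine ⟨hee, ?_⟩
  subst hee
  obtain ⟨n1, h4⟩ := hat
  obtain ⟨n2, h5⟩ := hat'
  rcases h4 with ⟨x1, x2⟩ | ⟨x1, x2⟩ <;> rcases h5 with ⟨y1, y2⟩ | ⟨y1, y2⟩
  · rw [← x1, ← y1]
  · exact absurd (x1.symm.trans y1) n1
  · exact absurd (y1.symm.trans x1) n2
  · rw [← x2, ← y2]

end Gir

open Gir

theorem gir : GIR := by
  intro ι V _ E a b k hk hV hE hloop hdeg
  by_contra hcon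
  push Not at hcon
  have H : ∀ z ⊆ E, z.Nonempty → (∀ v, Gir.bd a b z v = 0) → 2 * k < z.card := by
    intro z h1 h2 h3
    have := hcon z h1 h2 h3
    omega
  obtain ⟨i0, hi0⟩ := hE
  set v0 := a i0 with hv0
  have hroot : Lv a b E v0 0 v0 := by
    refine ⟨⟨∅, ⟨empty_subset _, fun x => by rw [two]; simp [Gir.bd]⟩, card_empty⟩,
      fun _ _ => Nat.zero_le _⟩
  -- the neighbours on the next level
  set N : ℕ → V → Finset V := fun j v =>
    univ.filter fun u => Lv a b E v0 (j + 1) u ∧ ∃ e ∈ E, At a b e v u with hN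
  have other : ∀ e ∈ E, ∀ v, (a e = v ∨ b e = v) → ∃ u, At a b e v u := by
    rintro e he v (h | h)
    · exact ⟨b e, fun h' => hloop e he (h.trans h'), Or.inl ⟨h, rfl⟩⟩
    · exact ⟨a e, fun h' => hloop e he (h'.symm.trans h.symm), Or.inr ⟨rfl, h⟩⟩
  choose! oe hoe using other
  have inc3 : ∀ j v, Lv a b E v0 j v → j < k →
      3 ≤ (E.filter fun e => a e = v ∨ b e = v).card := by
    intro j v hv hjk
    rcases Nat.eq_zero_or_pos j with rfl | hj
    · have hvv : v = v0 := by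
        by_contra hne
        obtain ⟨⟨P, hJ, hc⟩, -⟩ := hv
        obtain ⟨e, he, -⟩ := exists_edge hJ hne
        rw [card_eq_zero.1 hc] at he
        exact notMem_empty _ he
      rw [hvv]
      exact hdeg i0 hi0 v0 (Or.inl rfl)
    · obtain ⟨⟨P, hJ, hc⟩, hm⟩ := hv
      obtain ⟨j', rfl⟩ : ∃ j', j = j' + 1 := ⟨j - 1, by omega⟩
      obtain ⟨e, he, u, hat⟩ := exists_edge hJ (ne_root (P := P) hm)
      refine hdeg e (hJ.1 he) v ?_
      obtain ⟨-, ⟨h, -⟩ | ⟨-, h⟩⟩ := hat
      · exact Or.inl h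
      · exact Or.inr h
  -- levels of neighbours
  have lev : ∀ j v, Lv a b E v0 j v → ∀ e ∈ E, ∀ u, At a b e v u →
      ∃ j', j' ≤ j + 1 ∧ Lv a b E v0 j' u := by
    intro j v hv e he u hat
    obtain ⟨⟨P, hJ, hc⟩, hm⟩ := hv
    obtain ⟨j', hj', h⟩ := exists_Lv (J_toggle hJ he hat)
    have := toggle_card_le P e
    exact ⟨j', by omega, h⟩
  have cardN : ∀ j v, Lv a b E v0 j v → j < k → (if j = 0 then 3 else 2) ≤ (N j v).card := by
    intro j v hv hjk
    set I := E.filter fun e => a e = v ∨ b e = v with hI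
    have hI3 := inc3 j v hv hjk
    rw [← hI] at hI3
    set U := I.filter fun e => Lv a b E v0 (j + 1) (oe e v) with hU
    have hUI : (I \ U).card ≤ if j = 0 then 0 else 1 := by
      have key : ∀ e ∈ I \ U, ∀ e' ∈ I \ U, 1 ≤ j ∧ e = e' := by
        intro e he e' he'
        simp only [hU, hI, mem_sdiff, mem_filter, not_and] at he he'
        have at1 := hoe e he.1.1 v he.1.2
        have at2 := hoe e' he'.1.1 v he'.1.2
        obtain ⟨j1, h1, l1⟩ := lev j v hv e he.1.1 _ at1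
        obtain ⟨j2, h2, l2⟩ := lev j v hv e' he'.1.1 _ at2
        have n1 : j1 ≠ j + 1 := fun h => he.2 he.1 (h ▸ l1)
        have n2 : j2 ≠ j + 1 := fun h => he'.2 he'.1 (h ▸ l2)
        exact low_unique H hv he.1.1 at1 l1 (by omega) he'.1.1 at2 l2 (by omega) (by omega)
      split_ifs with hj
      · rw [Nat.le_zero, card_eq_zero, eq_empty_iff_forall_notMem]
        intro e he
        have := (key e he e he).1
        omega
      · rw [card_le_one]
        intro e he e' he'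
        exact (key e he e' he').2
    have hcU : U.card + (I \ U).card = I.card := by
      have : U ⊆ I := filter_subset _ _
      have := card_sdiff_add_card_eq_card this
      omega
    have hle : U.card ≤ (N j v).card := by
      refine card_le_card_of_injOn (fun e => oe e v) ?_ ?_
      · intro e he
        rw [mem_coe, hU, mem_filter, hI, mem_filter] at he
        rw [mem_coe, hN, mem_filter]
        exact ⟨mem_univ _, he.2, e, he.1.1, hoe e he.1.1 v he.1.2⟩
      · intro e he e' he' heq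
        rw [mem_coe, hU, mem_filter, hI, mem_filter] at he he'
        simp only at heq
        have at1 := hoe e he.1.1 v he.1.2
        have at2 := hoe e' he'.1.1 v he'.1.2
        rw [← heq] at at2
        exact (up_inj H hv hv he.1.1 he'.1.1 at1 at2 he.2 (by omega)).1
    split_ifs at hUI ⊢ with hj <;> omega
  set L : ℕ → Finset V := fun j => univ.filter fun v => Lv a b E v0 j v with hL
  have grow : ∀ j, j < k → (if j = 0 then 3 else 2) * (L j).card ≤ (L (j + 1)).card := by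
    intro j hjk
    have hsub : (L j).biUnion (N j) ⊆ L (j + 1) := by
      intro u hu
      rw [mem_biUnion] at hu
      obtain ⟨v, -, hu⟩ := hu
      rw [hN, mem_filter] at hu
      rw [hL, mem_filter]
      exact ⟨mem_univ _, hu.2.1⟩
    refine le_trans ?_ (card_le_card hsub)
    rw [card_biUnion]
    · rw [mul_comm, ← smul_eq_mul, ← Finset.sum_const]
      refine Finset.sum_le_sum fun v hv => ?_
      rw [hL, mem_filter] at hv
      exact cardN j v hv.2 hjk
    · intro v hv v' hv' hne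
      rw [Function.onFun, Finset.disjoint_left]
      intro u hu hu'
      rw [hN, mem_filter] at hu hu'
      rw [mem_coe, hL, mem_filter] at hv hv'
      obtain ⟨-, hl, e, he, hat⟩ := hu
      obtain ⟨-, -, e', he', hat'⟩ := hu'
      exact hne (up_inj H hv.2 hv'.2 he he' hat hat' hl (by omega)).2
  have size : ∀ j, 1 ≤ j → j ≤ k → 3 * 2 ^ (j - 1) ≤ (L j).card := by
    intro j hj
    induction j, hj using Nat.le_induction with
    | base =>
      intro _
      have h0 := grow 0 (by omega)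
      have h1 : 1 ≤ (L 0).card := by
        rw [Nat.one_le_iff_ne_zero, Ne, card_eq_zero]
        intro h
        have : v0 ∈ L 0 := by rw [hL, mem_filter]; exact ⟨mem_univ _, hroot⟩
        rw [h] at this
        exact notMem_empty _ this
      simp at h0 ⊢
      omega
    | succ j hj ih =>
      intro hjk
      have h0 := grow j (by omega)
      have h1 := ih (by omega)
      rw [if_neg (by omega)] at h0
      have h2 : 2 ^ (j + 1 - 1) = 2 * 2 ^ (j - 1) := by
        rw [← pow_succ']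
        congr 1
        omega
      rw [h2]
      omega
  have h1 := size k hk le_rfl
  have h2 : (L k).card ≤ Fintype.card V := card_le_univ _
  have h3 : 2 ^ k = 2 * 2 ^ (k - 1) := by
    rw [← pow_succ']
    congr 1
    omega
  have h4 : 0 < 2 ^ (k - 1) := by positivity
  omega

end Pool.MP_35885f.LG
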