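import Pool.Agent.Lib.MP_35885f_lg.Stat

/-!
# Row MMX: minimax (helper26, after Frac.lean)
-/

open Finset

namespace Pool.MP_35885f.LG

open scoped Classical

theorem mmx : MMX := by
  intro E I _ _ P ld L H
  set S : Set (E → ℝ) := {x | ∃ i, P i ∧ x = ld i} with hS
  set Q : Set (E → ℝ) :=
    {x | ∃ p : I → ℝ, (∀ i, 0 ≤ p i) ∧ (∀ i, p i ≠ 0 → P i) ∧ ∑ i, p i = 1 ∧
      ∀ e, ∑ i, p i * ld i e ≤ x e} with hQ
  set C : Set (E → ℝ) := {x | ∀ e, x e ≤ L} with hC
  have hSfin : S.Finite := by
    refine Set.Finite.subset (Set.finite_range ld) ?_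
    rintro x ⟨i, -, rfl⟩
    exact ⟨i, rfl⟩
  have hQconv : Convex ℝ Q := by
    rintro x ⟨p, h1, h2, h3, h4⟩ y ⟨p', h1', h2', h3', h4'⟩ α β hα hβ hαβ
    refine ⟨fun i => α * p i + β * p' i, ?_, ?_, ?_, ?_⟩
    · intro i
      exact add_nonneg (mul_nonneg hα (h1 i)) (mul_nonneg hβ (h1' i))
    · intro i hi
      by_cases hp : p i = 0
      · by_cases hp' : p' i = 0
        · exact absurd (show α * p i + β * p' i = 0 by rw [hp, hp', mul_zero, mul_zero, add_zero]) hi
        · exact h2' i hp'
      · exact h2 i hp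
    · rw [Finset.sum_add_distrib, ← Finset.mul_sum, ← Finset.mul_sum, h3, h3', mul_one, mul_one,
        hαβ]
    · intro e
      simp only [Pi.add_apply, Pi.smul_apply, smul_eq_mul, add_mul, Finset.sum_add_distrib,
        mul_assoc, ← Finset.mul_sum]
      exact add_le_add (mul_le_mul_of_nonneg_left (h4 e) hα) (mul_le_mul_of_nonneg_left (h4' e) hβ)
  have hSQ : S ⊆ Q := by
    rintro x ⟨j, hj, rfl⟩
    refine ⟨fun i => if i = j then 1 else 0, ?_, ?_, ?_, ?_⟩
    · intro i
      dsimp only
      split_ifs <;> norm_num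
    · intro i hi
      by_cases h : i = j
      · rw [h]; exact hj
      · exact absurd (if_neg h) hi
    · rw [Finset.sum_ite_eq' Finset.univ j, if_pos (Finset.mem_univ j)]
    · intro e
      simp only [ite_mul, one_mul, zero_mul]
      rw [Finset.sum_ite_eq' Finset.univ j, if_pos (Finset.mem_univ j)]
  have hCconv : Convex ℝ C := by
    intro x hx y hy α β hα hβ hαβ e
    simp only [Pi.add_apply, Pi.smul_apply, smul_eq_mul]
    calc α * x e + β * y e ≤ α * L + β * L :=
          add_le_add (mul_le_mul_of_nonneg_left (hx e) hα) (mul_le_mul_of_nonneg_left (hy e) hβ)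
      _ = L := by rw [← add_mul, hαβ, one_mul]
  have hCclosed : IsClosed C := by
    have : C = ⋂ e : E, {x | x e ≤ L} := by ext x; simp [hC]
    rw [this]
    exact isClosed_iInter fun e => isClosed_le (continuous_apply e) continuous_const
  by_cases hdis : Disjoint (convexHull ℝ S) C
  · exfalso
    obtain ⟨f, u, v, h1, huv, h2⟩ := geometric_hahn_banach_compact_closed
      (convex_convexHull ℝ S) (hSfin.isCompact_convexHull ℝ) hCconv hCclosed hdis
    set c : E → ℝ := fun e => f (Pi.single e 1) with hc
    have hf : ∀ x : E → ℝ, f x = ∑ e, x e * c e := by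
      intro x
      have := LinearMap.pi_apply_eq_sum_univ (f : (E → ℝ) →ₗ[ℝ] ℝ) x
      simp only [ContinuousLinearMap.coe_coe, smul_eq_mul] at this
      rw [this]
      refine Finset.sum_congr rfl fun e _ => ?_
      congr 2
      funext j
      simp [Pi.single_apply, eq_comm]
    have hcneg : ∀ e, c e ≤ 0 := by
      intro e
      by_contra hpos
      push Not at hpos
      set one : E → ℝ := fun _ => L with hone
      have hv1 : v < f one := h2 one (fun e => le_rfl)
      set n : ℝ := (f one - v) / c e with hn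
      have hn0 : 0 ≤ n := div_nonneg (by linarith) hpos.le
      have hmem : one - n • (Pi.single e 1 : E → ℝ) ∈ C := by
        intro e'
        simp only [Pi.sub_apply, Pi.smul_apply, smul_eq_mul, hone]
        have : 0 ≤ n * (Pi.single e 1 : E → ℝ) e' := by
          refine mul_nonneg hn0 ?_
          by_cases he : e' = e
          · subst he; simp
          · simp [he]
        linarith
      have := h2 _ hmem
      rw [map_sub, map_smul, smul_eq_mul] at this
      have e3 : n * c e = f one - v := by rw [hn]; field_simp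
      have e4 : n * f (Pi.single e 1) = f one - v := e3
      rw [e4] at this
      linarith
    obtain ⟨i, hi, hle⟩ := H (fun e => - c e) (fun e => by have := hcneg e; linarith)
    have h3 := h1 _ (subset_convexHull ℝ S ⟨i, hi, rfl⟩)
    have h4 := h2 (fun _ => L) (fun e => le_rfl)
    rw [hf] at h3 h4
    have e1 : ∑ e, - c e * ld i e = - ∑ e, ld i e * c e := by
      rw [← Finset.sum_neg_distrib]
      refine Finset.sum_congr rfl fun e _ => ?_
      ring
    have e2 : L * ∑ e, - c e = - ∑ e, L * c e := by
      rw [Finset.mul_sum, ← Finset.sum_neg_distrib]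
      refine Finset.sum_congr rfl fun e _ => ?_
      ring
    rw [e1, e2] at hle
    linarith
  · rw [Set.not_disjoint_iff] at hdis
    obtain ⟨x, hx1, hx2⟩ := hdis
    obtain ⟨p, h1, h2, h3, h4⟩ := convexHull_min hSQ hQconv hx1
    exact ⟨p, h1, h2, h3, fun e => (h4 e).trans (hx2 e)⟩

end Pool.MP_35885f.LG
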