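import Pool.Agent.Lib.MP_35885f_cs.Final
import Pool.Agent.Lib.MP_35885f_co.Final

/-!
# Isolated vertices do not matter, and the logarithmic bound along clique separators
-/

open Finset

namespace Pool.MP_35885f.LG

open scoped Classical
open CS

section Piece

variable {V : Type} (G : SimpleGraph V) (s : Finset V)

/-- the inclusion on pairs -/
def em : Sym2 {v // v ∈ s} → Sym2 V := Sym2.map Subtype.val

lemma em_inj : Function.Injective (em s) := Sym2.map.injective Subtype.val_injective

lemma em_edge (e : Sym2 {v // v ∈ s}) :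
    em s e ∈ (piece G {v | v ∈ s}).edgeSet ↔ e ∈ (G.comap (Subtype.val : {v // v ∈ s} → V)).edgeSet := by
  induction e using Sym2.ind with
  | _ u v =>
    simp only [em, Sym2.map_mk, SimpleGraph.mem_edgeSet, SimpleGraph.comap_adj]
    exact ⟨fun h => h.1, fun h => ⟨h, u.2, v.2⟩⟩

lemma edge_range {e : Sym2 V} (he : e ∈ (piece G {v | v ∈ s}).edgeSet) : ∃ e', em s e' = e := by
  induction e using Sym2.ind with
  | _ u v =>
    obtain ⟨-, hu, hv⟩ := he
    exact ⟨s(⟨u, hu⟩, ⟨v, hv⟩), rfl⟩

/-- extension by zero -/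
noncomputable def ext0 : (Sym2 {v // v ∈ s} → ZMod 2) →ₗ[ZMod 2] (Sym2 V → ZMod 2) :=
  Function.ExtendByZero.linearMap (ZMod 2) (em s)

lemma ext0_em (f : Sym2 {v // v ∈ s} → ZMod 2) (e : Sym2 {v // v ∈ s}) :
    ext0 s f (em s e) = f e := (em_inj s).extend_apply f (0 : Sym2 V → ZMod 2) e

lemma ext0_out (f : Sym2 {v // v ∈ s} → ZMod 2) {e : Sym2 V} (he : ¬ ∃ e', em s e' = e) :
    ext0 s f e = 0 := Function.extend_apply' f (0 : Sym2 V → ZMod 2) e he

lemma not_range {u v : V} (h : u ∉ s ∨ v ∉ s) : ¬ ∃ e', em s e' = s(u, v) := by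
  rintro ⟨e', he⟩
  induction e' using Sym2.ind with
  | _ x y =>
    simp only [em, Sym2.map_mk] at he
    have hx := x.2
    have hy := y.2
    rcases Sym2.eq_iff.1 he with ⟨h1, h2⟩ | ⟨h1, h2⟩
    · rw [h1] at hx; rw [h2] at hy
      rcases h with h | h
      exacts [h hx, h hy]
    · rw [h1] at hx; rw [h2] at hy
      rcases h with h | h
      exacts [h hy, h hx]

variable [Fintype V]

lemma sum_sub (F : V → ZMod 2) (h : ∀ w, w ∉ s → F w = 0) :
    ∑ w : {v // v ∈ s}, F w.1 = ∑ w, F w := by
  rw [Finset.sum_coe_sort s F]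
  exact Finset.sum_subset (subset_univ s) fun w _ hw => h w hw

lemma map_cycleSpace :
    (cycleSpace (G.comap (Subtype.val : {v // v ∈ s} → V))).map (ext0 s) =
      cycleSpace (piece G {v | v ∈ s}) := by
  ext g
  rw [Submodule.mem_map]
  constructor
  · rintro ⟨f, ⟨hf1, hf2⟩, rfl⟩
    refine ⟨fun e he => ?_, fun v => ?_⟩
    · by_cases hr : ∃ e', em s e' = e
      · obtain ⟨e', rfl⟩ := hr
        rw [ext0_em]
        exact hf1 e' fun h => he ((em_edge G s e').2 h)
      · exact ext0_out s f hr
    · by_cases hv : v ∈ s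
      · rw [← sum_sub s (fun w => ext0 s f s(v, w)) fun w hw => ext0_out s f (not_range s (Or.inr hw))]
        rw [← hf2 ⟨v, hv⟩]
        refine Finset.sum_congr rfl fun w _ => ?_
        exact ext0_em s f s(⟨v, hv⟩, w)
      · exact Finset.sum_eq_zero fun w _ => ext0_out s f (not_range s (Or.inl hv))
  · rintro ⟨hg1, hg2⟩
    have hout : ∀ e, (¬ ∃ e', em s e' = e) → g e = 0 := fun e he =>
      hg1 e fun h => he (edge_range G s h)
    refine ⟨fun e => g (em s e), ⟨fun e he => ?_, fun v => ?_⟩, ?_⟩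
    · exact hg1 _ fun h => he ((em_edge G s e).1 h)
    · have h1 := sum_sub s (fun w => g s(v.1, w)) fun w hw => hout _ (not_range s (Or.inr hw))
      rw [hg2] at h1
      exact h1
    · funext e
      by_cases hr : ∃ e', em s e' = e
      · obtain ⟨e', rfl⟩ := hr
        rw [ext0_em]
      · rw [ext0_out s _ hr, hout e hr]

/-- Isolated vertices do not change the basis number. -/
theorem piece_le :
    basisNumber (piece G {v | v ∈ s}) ≤
      basisNumber (G.comap (Subtype.val : {v // v ∈ s} → V)) := by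
  obtain ⟨B, hB1, hB2⟩ := exists_basis_ply (G.comap (Subtype.val : {v // v ∈ s} → V))
  refine basisNumber_le_of_span _ _ (B.image (ext0 s)) ?_ fun e he => ?_
  · rw [Finset.coe_image, Submodule.span_image, hB1.2, map_cycleSpace]
  · obtain ⟨e', rfl⟩ := edge_range G s he
    refine le_trans ?_ (hB2 e' ((em_edge G s e').1 he))
    unfold ply
    rw [Finset.filter_image]
    refine Finset.card_image_le.trans (Finset.card_le_card ?_)
    intro b hb
    rw [Finset.mem_filter] at hb ⊢
    refine ⟨hb.1, ?_⟩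
    rw [← ext0_em s b e']
    exact hb.2

end Piece

/-- The basis number along clique separators is logarithmic in the size of the parts, given the
logarithmic bound for all graphs. -/
theorem cliqueAdhesions_log
    (hlog : ∀ (V : Type) [Fintype V] (G : SimpleGraph V) (k : ℕ), Fintype.card V ≤ 2 ^ k →
      basisNumber G ≤ 5 * k)
    {V : Type} [Fintype V] (G : SimpleGraph V) (D : TreeDecomp G) (k : ℕ)
    (hD : CliqueAdhesions D) (hk : ∀ x, (D.bag x).card ≤ 2 ^ k) :
    basisNumber G ≤ 10 * k + 1 := by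
  have h := cliqueAdhesions_le G D (5 * k) hD fun x =>
    (piece_le G (D.bag x)).trans (hlog _ _ k (by rw [Fintype.card_coe]; exact hk x))
  omega

end Pool.MP_35885f.LG
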