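import Pool.Agent.Lib.MP_35885f_lg.Stat

/-!
# Row SWP: rounding by basis exchange

A distribution `p` on the members of a family with symmetric exchange is merged, one member at a
time, into a single member, and the value of `F x = ∑ₑ ∏_{z : r z e} (1 + x z)` never goes up,
because `F` is concave in the directions `1_c - 1_c'`.
-/

open Finset

namespace Pool.MP_35885f.LG

open scoped Classical

namespace SwpAux

variable {Ω E : Type} [Fintype Ω] [Fintype E]

/-- The factor of `z` in the product over all `z` with `S z`. -/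
noncomputable def g (S : Ω → Prop) (x : Ω → ℝ) (z : Ω) : ℝ := if S z then 1 + x z else 1

/-- The rounding function. -/
noncomputable def F (r : Ω → E → Prop) (x : Ω → ℝ) : ℝ := ∑ e, ∏ z with r z e, (1 + x z)

/-- The indicator function of `B`. -/
noncomputable def idc (B : Finset Ω) (z : Ω) : ℝ := if z ∈ B then 1 else 0

omit [Fintype Ω] in
lemma idc_nonneg (B : Finset Ω) (z : Ω) : 0 ≤ idc B z := by
  unfold idc
  split_ifs
  · exact zero_le_one
  · exact le_rfl

lemma prod_split (S : Ω → Prop) (x : Ω → ℝ) {c c' : Ω} (hne : c ≠ c') :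
    ∏ z with S z, (1 + x z) =
      g S x c * (g S x c' * ∏ z ∈ (univ.erase c).erase c', g S x z) := by
  rw [Finset.prod_filter]
  rw [Finset.mul_prod_erase _ _ (by simp [hne.symm]), Finset.mul_prod_erase _ _ (mem_univ _)]
  rfl

lemma step_e (S : Ω → Prop) (x : Ω → ℝ) (hx : ∀ z, 0 ≤ x z) {c c' : Ω} (hne : c ≠ c')
    {p₁ p₂ : ℝ} (h₁ : 0 ≤ p₁) (h₂ : 0 ≤ p₂) (y w : Ω → ℝ)
    (y1 : y c = x c + p₂) (y2 : y c' = x c' - p₂) (y3 : ∀ z, z ≠ c → z ≠ c' → y z = x z)
    (w1 : w c = x c - p₁) (w2 : w c' = x c' + p₁) (w3 : ∀ z, z ≠ c → z ≠ c' → w z = x z) :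
    p₁ * ∏ z with S z, (1 + y z) + p₂ * ∏ z with S z, (1 + w z) ≤
      (p₁ + p₂) * ∏ z with S z, (1 + x z) := by
  rw [prod_split S x hne, prod_split S y hne, prod_split S w hne]
  have e1 : ∏ z ∈ (univ.erase c).erase c', g S y z = ∏ z ∈ (univ.erase c).erase c', g S x z :=
    Finset.prod_congr rfl fun z hz => by
      simp only [mem_erase] at hz
      simp only [g, y3 z hz.2.1 hz.1]
  have e2 : ∏ z ∈ (univ.erase c).erase c', g S w z = ∏ z ∈ (univ.erase c).erase c', g S x z :=
    Finset.prod_congr rfl fun z hz => by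
      simp only [mem_erase] at hz
      simp only [g, w3 z hz.2.1 hz.1]
  rw [e1, e2]
  have hR : 0 ≤ ∏ z ∈ (univ.erase c).erase c', g S x z := Finset.prod_nonneg fun z _ => by
    unfold g
    split_ifs
    · linarith [hx z]
    · exact zero_le_one
  generalize (∏ z ∈ (univ.erase c).erase c', g S x z) = R at hR ⊢
  have hq : 0 ≤ R * (p₁ * p₂ * (p₁ + p₂)) := mul_nonneg hR (by positivity)
  unfold g
  rw [y1, y2, w1, w2]
  split_ifs
  · nlinarith [hq]
  · apply le_of_eq
    ring
  · apply le_of_eq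
    ring
  · apply le_of_eq
    ring

lemma step (r : Ω → E → Prop) (x : Ω → ℝ) (hx : ∀ z, 0 ≤ x z) {c c' : Ω} (hne : c ≠ c')
    {p₁ p₂ : ℝ} (h₁ : 0 ≤ p₁) (h₂ : 0 ≤ p₂) (y w : Ω → ℝ)
    (y1 : y c = x c + p₂) (y2 : y c' = x c' - p₂) (y3 : ∀ z, z ≠ c → z ≠ c' → y z = x z)
    (w1 : w c = x c - p₁) (w2 : w c' = x c' + p₁) (w3 : ∀ z, z ≠ c → z ≠ c' → w z = x z) :
    F r y ≤ F r x ∨ F r w ≤ F r x := by
  have hs : p₁ * F r y + p₂ * F r w ≤ (p₁ + p₂) * F r x := by
    unfold F
    rw [Finset.mul_sum, Finset.mul_sum, Finset.mul_sum, ← Finset.sum_add_distrib]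
    exact Finset.sum_le_sum fun e _ =>
      step_e (fun z => r z e) x hx hne h₁ h₂ y w y1 y2 y3 w1 w2 w3
  rcases eq_or_lt_of_le h₁ with h | h
  · subst h
    rcases eq_or_lt_of_le h₂ with h' | h'
    · subst h'
      left
      have : y = x := by
        funext z
        by_cases hz : z = c
        · subst hz
          rw [y1, add_zero]
        · by_cases hz' : z = c'
          · subst hz'
            rw [y2, sub_zero]
          · exact y3 z hz hz'
      rw [this]
    · right
      have : p₂ * F r w ≤ p₂ * F r x := by linarith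
      exact le_of_mul_le_mul_left this h'
  · by_contra hcon
    push Not at hcon
    have a1 : p₁ * F r x < p₁ * F r y := mul_lt_mul_of_pos_left hcon.1 h
    have a2 : p₂ * F r x ≤ p₂ * F r w := mul_le_mul_of_nonneg_left hcon.2.le h₂
    linarith

/-- Two members are merged into one. -/
lemma merge (r : Ω → E → Prop) {Bs : Finset Ω → Prop} (hex : Exch Bs) (x₀ : Ω → ℝ)
    (hx₀ : ∀ z, 0 ≤ x₀ z) {p₁ p₂ : ℝ} (h₁ : 0 ≤ p₁) (h₂ : 0 ≤ p₂) :
    ∀ (n : ℕ) (B₁ B₂ : Finset Ω), (B₁ \ B₂).card = n → Bs B₁ → Bs B₂ →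
      ∃ B, Bs B ∧ F r (fun z => x₀ z + (p₁ + p₂) * idc B z) ≤
        F r (fun z => x₀ z + (p₁ * idc B₁ z + p₂ * idc B₂ z)) := by
  intro n
  induction n with
  | zero =>
    intro B₁ B₂ hc hB₁ hB₂
    rw [Finset.card_eq_zero] at hc
    have heq : B₁ = B₂ := by
      apply Finset.Subset.antisymm (Finset.sdiff_eq_empty_iff_subset.mp hc)
      rw [← Finset.sdiff_eq_empty_iff_subset, Finset.eq_empty_iff_forall_notMem]
      intro c hcm
      obtain ⟨c', hc', _⟩ := hex B₂ B₁ hB₂ hB₁ c hcm
      rw [hc] at hc'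
      exact absurd hc' (Finset.notMem_empty _)
    subst heq
    refine ⟨B₁, hB₁, le_of_eq ?_⟩
    congr 1
    funext z
    ring
  | succ n ih =>
    intro B₁ B₂ hc hB₁ hB₂
    obtain ⟨c, hcm⟩ : (B₁ \ B₂).Nonempty := by
      rw [← Finset.card_pos, hc]
      exact Nat.succ_pos _
    obtain ⟨c', hc', hD₁, hD₂⟩ := hex B₁ B₂ hB₁ hB₂ c hcm
    have hc1 := Finset.mem_sdiff.mp hcm
    have hc2 := Finset.mem_sdiff.mp hc'
    have hne : c ≠ c' := by
      rintro rfl
      exact hc2.2 hc1.1
    have k1 : (B₁ \ insert c (B₂.erase c')).card = n := by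
      have : B₁ \ insert c (B₂.erase c') = (B₁ \ B₂).erase c := by
        ext z
        simp only [mem_sdiff, mem_insert, mem_erase, not_or, not_and]
        constructor
        · rintro ⟨a, b, d⟩
          refine ⟨b, a, fun hz => d ?_ hz⟩
          rintro rfl
          exact hc2.2 a
        · rintro ⟨a, b, d⟩
          exact ⟨b, a, fun _ => d⟩
      rw [this, Finset.card_erase_of_mem hcm, hc]
      rfl
    have k2 : (insert c' (B₁.erase c) \ B₂).card = n := by
      have : insert c' (B₁.erase c) \ B₂ = (B₁ \ B₂).erase c := by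
        ext z
        simp only [mem_sdiff, mem_insert, mem_erase]
        constructor
        · rintro ⟨a | a, b⟩
          · subst a
            exact absurd hc2.1 b
          · exact ⟨a.1, a.2, b⟩
        · rintro ⟨a, b, d⟩
          exact ⟨Or.inr ⟨a, b⟩, d⟩
      rw [this, Finset.card_erase_of_mem hcm, hc]
      rfl
    have key := step r (fun z => x₀ z + (p₁ * idc B₁ z + p₂ * idc B₂ z))
      (fun z => add_nonneg (hx₀ z) (add_nonneg (mul_nonneg h₁ (idc_nonneg _ _))
        (mul_nonneg h₂ (idc_nonneg _ _)))) hne h₁ h₂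
      (fun z => x₀ z + (p₁ * idc B₁ z + p₂ * idc (insert c (B₂.erase c')) z))
      (fun z => x₀ z + (p₁ * idc (insert c' (B₁.erase c)) z + p₂ * idc B₂ z))
      (by simp [idc, hc1.1, hc1.2]; ring)
      (by simp [idc, hc2.1, hc2.2, hne.symm])
      (by
        intro z hz hz'
        simp [idc, hz, hz'])
      (by simp [idc, hc1.1, hne]; ring)
      (by simp [idc, hc2.1, hc2.2]; ring)
      (by
        intro z hz hz'
        simp [idc, hz, hz'])
    rcases key with key | key
    · obtain ⟨B, hB, hle⟩ := ih B₁ (insert c (B₂.erase c')) k1 hB₁ hD₂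
      exact ⟨B, hB, hle.trans key⟩
    · obtain ⟨B, hB, hle⟩ := ih (insert c' (B₁.erase c)) B₂ k2 hD₁ hB₂
      exact ⟨B, hB, hle.trans key⟩

/-- All members of a nonempty set are merged into one. -/
lemma merge_all (r : Ω → E → Prop) {Bs : Finset Ω → Prop} (hex : Exch Bs)
    (p : Finset Ω → ℝ) (hp : ∀ B, 0 ≤ p B) :
    ∀ (T : Finset (Finset Ω)), T.Nonempty → (∀ B ∈ T, Bs B) → ∀ x₀ : Ω → ℝ, (∀ z, 0 ≤ x₀ z) →
      ∃ B, Bs B ∧ F r (fun z => x₀ z + (∑ B ∈ T, p B) * idc B z) ≤
        F r (fun z => x₀ z + ∑ B ∈ T, p B * idc B z) := by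
  intro T
  induction T using Finset.induction_on with
  | empty =>
    intro h
    exact absurd h (by simp)
  | insert B₀ T hB₀ ih =>
    intro _ hT x₀ hx₀
    have hBs₀ : Bs B₀ := hT B₀ (Finset.mem_insert_self _ _)
    rcases T.eq_empty_or_nonempty with hTe | hTn
    · subst hTe
      exact ⟨B₀, hBs₀, by simp⟩
    · obtain ⟨B₁, hB₁, hle⟩ := ih hTn (fun B hB => hT B (Finset.mem_insert_of_mem hB))
        (fun z => x₀ z + p B₀ * idc B₀ z)
        (fun z => add_nonneg (hx₀ z) (mul_nonneg (hp _) (idc_nonneg _ _)))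
      obtain ⟨B, hB, hle'⟩ := merge r hex x₀ hx₀ (hp B₀)
        (Finset.sum_nonneg fun B (_ : B ∈ T) => hp B) _ B₀ B₁ rfl hBs₀ hB₁
      refine ⟨B, hB, ?_⟩
      rw [Finset.sum_insert hB₀]
      refine hle'.trans ?_
      have e1 : (fun z => x₀ z + (p B₀ * idc B₀ z + (∑ B ∈ T, p B) * idc B₁ z)) =
          fun z => x₀ z + p B₀ * idc B₀ z + (∑ B ∈ T, p B) * idc B₁ z := by
        funext z
        ring
      have e2 : (fun z => x₀ z + ∑ B ∈ insert B₀ T, p B * idc B z) =
          fun z => x₀ z + p B₀ * idc B₀ z + ∑ B ∈ T, p B * idc B z := by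
        funext z
        rw [Finset.sum_insert hB₀]
        ring
      rw [e1, e2]
      exact hle

end SwpAux

open SwpAux in
/-- Row SWP. -/
theorem swp : SWP := by
  intro Ω E _ _ r Bs hex p hp hpB hsum
  have hT : (univ.filter fun B : Finset Ω => p B ≠ 0).Nonempty := by
    by_contra hcon
    rw [Finset.not_nonempty_iff_eq_empty] at hcon
    have h0 : ∑ B, p B = 0 := by
      apply Finset.sum_eq_zero
      intro B _
      by_contra hB
      have : B ∈ (univ.filter fun B : Finset Ω => p B ≠ 0) := by simp [hB]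
      rw [hcon] at this
      exact absurd this (Finset.notMem_empty _)
    rw [hsum] at h0
    exact one_ne_zero h0
  obtain ⟨B, hB, hle⟩ := merge_all r hex p hp (univ.filter fun B : Finset Ω => p B ≠ 0) hT
    (fun B hB => hpB B (Finset.mem_filter.mp hB).2) (fun _ => 0) (fun _ => le_rfl)
  refine ⟨B, hB, ?_⟩
  have hs1 : ∑ B ∈ (univ.filter fun B : Finset Ω => p B ≠ 0), p B = 1 := by
    rw [Finset.sum_filter_ne_zero, hsum]
  have e1 : F r (fun z : Ω => 0 +
      (∑ B ∈ (univ.filter fun B : Finset Ω => p B ≠ 0), p B) * idc B z) =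
      ∑ e, (2 : ℝ) ^ (B.filter fun z => r z e).card := by
    unfold F
    apply Finset.sum_congr rfl
    intro e _
    rw [hs1]
    have : ∀ z : Ω, (1 : ℝ) + (0 + 1 * idc B z) = if z ∈ B then 2 else 1 := by
      intro z
      unfold idc
      split_ifs <;> norm_num
    simp only [this]
    rw [Finset.prod_ite, Finset.prod_const, Finset.prod_const_one, mul_one]
    congr 2
    ext z
    simp only [mem_filter, mem_univ, true_and]
    exact and_comm
  have e2 : F r (fun z : Ω => 0 +
      ∑ B ∈ (univ.filter fun B : Finset Ω => p B ≠ 0), p B * idc B z) =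
      ∑ e, ∏ z with r z e, (1 + ∑ B with z ∈ B, p B) := by
    unfold F
    apply Finset.sum_congr rfl
    intro e _
    apply Finset.prod_congr rfl
    intro z _
    congr 1
    change 0 + ∑ B with p B ≠ 0, p B * idc B z = ∑ B with z ∈ B, p B
    rw [zero_add, Finset.sum_filter, Finset.sum_filter]
    apply Finset.sum_congr rfl
    intro B' _
    unfold idc
    by_cases h : p B' = 0
    · simp [h]
    · simp [h]
  rw [e1, e2] at hle
  exact hle

end Pool.MP_35885f.LG
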