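import Pool.Agent.Lib.MP_35885f_lg.Stat

/-!
# Row WBG: cheap cycle bases of a weighted graph (helper16)
-/

open Finset

namespace Pool.MP_35885f.LG

open scoped Classical

theorem wbg_inc {V : Type} (i : Sym2 V) (v : V) (h : ¬ i.IsDiag) :
    inc (fun e : Sym2 V => (Quot.out e).1) (fun e : Sym2 V => (Quot.out e).2) i v =
      if v ∈ i then 1 else 0 := by
  obtain ⟨p, hp⟩ : ∃ p : V × V, Quot.out i = p := ⟨_, rfl⟩
  have hi : i = s(p.1, p.2) := by
    rw [← Quot.out_eq i, hp]
  have hne : p.1 ≠ p.2 := by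
    intro hh
    apply h
    rw [hi, hh]
    exact Sym2.mk_isDiag_iff.2 rfl
  unfold inc
  simp only [hp]
  rw [hi]
  simp only [Sym2.mem_iff]
  by_cases h1 : p.1 = v
  · have h2 : p.2 ≠ v := fun h2 => hne (h1.trans h2.symm)
    rw [if_pos h1, if_neg h2, if_pos (Or.inl h1.symm), add_zero]
  · by_cases h2 : p.2 = v
    · rw [if_neg h1, if_pos h2, if_pos (Or.inr h2.symm), zero_add]
    · rw [if_neg h1, if_neg h2, if_neg, add_zero]
      rintro (h3 | h3)
      · exact h1 h3.symm
      · exact h2 h3.symm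

theorem wbg_sum {V : Type} [Fintype V] (G : SimpleGraph V) (f : Sym2 V → ZMod 2)
    (hf : ∀ e, e ∉ G.edgeSet → f e = 0) (v : V) :
    ∑ i with i ∈ G.edgeSet, f i * inc (fun e : Sym2 V => (Quot.out e).1)
      (fun e : Sym2 V => (Quot.out e).2) i v = ∑ w, f s(v, w) := by
  have h1 : ∑ w, f s(v, w) = ∑ i ∈ univ.image (fun w => s(v, w)), f i := by
    rw [sum_image]
    intro x _ y _ hxy
    exact Sym2.congr_right.1 hxy
  have h2 : (univ.image fun w => s(v, w)) = univ.filter (fun i : Sym2 V => v ∈ i) := by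
    ext i
    simp only [mem_image, mem_univ, true_and, mem_filter]
    constructor
    · rintro ⟨w, rfl⟩
      exact Sym2.mem_mk_left v w
    · rintro ⟨w, rfl⟩
      exact ⟨w, rfl⟩
  rw [h1, h2, sum_filter, sum_filter]
  refine sum_congr rfl fun i _ => ?_
  by_cases hi : i ∈ G.edgeSet
  · rw [if_pos hi, wbg_inc i v (G.not_isDiag_of_mem_edgeSet hi)]
    by_cases hv : v ∈ i
    · rw [if_pos hv, if_pos hv, mul_one]
    · rw [if_neg hv, if_neg hv, mul_zero]
  · rw [if_neg hi, hf i hi]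
    split_ifs <;> rfl

theorem wbg_Zs {V : Type} [Fintype V] (G : SimpleGraph V) :
    Zs (univ.filter fun e : Sym2 V => e ∈ G.edgeSet) (fun e : Sym2 V => (Quot.out e).1)
      (fun e : Sym2 V => (Quot.out e).2) = cycleSpace G := by
  ext f
  constructor
  · rintro ⟨h1, h2⟩
    have h0 : ∀ e, e ∉ G.edgeSet → f e = 0 := fun e he => h1 e (by simpa using he)
    refine ⟨h0, fun v => ?_⟩
    rw [← wbg_sum G f h0 v]
    exact h2 v
  · rintro ⟨h1, h2⟩
    refine ⟨fun e he => h1 e (by simpa using he), fun v => ?_⟩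
    rw [wbg_sum G f h1 v]
    exact h2 v

/-- Row WBG -/
theorem wbg (h : WB) : WBG := by
  intro V _ G k hk hV w hw
  obtain ⟨S, hS1, hS2, hS3⟩ := h (Sym2 V) V k hk hV (univ.filter fun e : Sym2 V => e ∈ G.edgeSet)
    (fun e : Sym2 V => (Quot.out e).1) (fun e : Sym2 V => (Quot.out e).2) w hw
  have hS : Submodule.span (ZMod 2) (S : Set (Sym2 V → ZMod 2)) = cycleSpace G := by
    rw [← wbg_Zs G]
    exact le_antisymm (Submodule.span_le.2 fun z hz => hS1 z hz) hS2
  obtain ⟨b, hb1, hb2, hb3⟩ := exists_linearIndependent (ZMod 2) (S : Set (Sym2 V → ZMod 2))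
  have hfin : b.Finite := S.finite_toSet.subset hb1
  have hcoe : (hfin.toFinset : Set (Sym2 V → ZMod 2)) = b := hfin.coe_toFinset
  have hsub : hfin.toFinset ⊆ S := fun x hx => hb1 (hfin.mem_toFinset.1 hx)
  refine ⟨hfin.toFinset, ⟨?_, ?_⟩, ?_⟩
  · have h1 : ∀ x, x ∈ hfin.toFinset ↔ x ∈ b := fun x => hfin.mem_toFinset
    have h2 := hb3.comp (fun x : hfin.toFinset => (⟨x.1, (h1 x.1).1 x.2⟩ : b)) (by
      intro x y h
      simp only [Subtype.mk.injEq] at h
      exact Subtype.ext h)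
    exact h2
  · rw [hcoe, hb2, hS]
  · refine le_trans ?_ hS3
    have h1 : ∑ e with e ∈ G.edgeSet, w e * (ply e hfin.toFinset : ℝ) =
        ∑ z ∈ hfin.toFinset, ∑ i with i ∈ G.edgeSet, (if z i ≠ 0 then w i else 0) := by
      rw [sum_comm]
      refine sum_congr rfl fun e _ => ?_
      unfold ply
      rw [← sum_filter, sum_const, nsmul_eq_mul, mul_comm]
    rw [h1]
    refine sum_le_sum_of_subset_of_nonneg hsub fun z _ _ => sum_nonneg fun i _ => ?_
    split_ifs
    · exact hw i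
    · exact le_refl _

end Pool.MP_35885f.LG
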