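import Pool.Agent.Lib.MP_35885f_lg.GIR
import Pool.Agent.Lib.MP_35885f_lg.WB
import Pool.Agent.Lib.MP_35885f_lg.WBG
import Pool.Agent.Lib.MP_35885f_lg.MMX
import Pool.Agent.Lib.MP_35885f_lg.SWP
import Pool.Agent.Lib.MP_35885f_lg.EXC
import Pool.Agent.Lib.MP_35885f_lg.FIN
import Pool.Agent.Lib.MP_35885f_lg.PC

/-!
# The logarithmic bound along clique separators
-/

namespace Pool.MP_35885f.LG

theorem log_all (V : Type) [Fintype V] (G : SimpleGraph V) (k : ℕ)
    (hk : Fintype.card V ≤ 2 ^ k) : basisNumber G ≤ 5 * k :=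
  (fin (wbg (wb gir)) mmx swp exc V G).trans
    (Nat.mul_le_mul_left 5 ((Nat.clog_le_iff_le_pow Nat.one_lt_two).2 hk))

/-- If `G` has a tree decomposition with clique adhesions all of whose bags have at most `2 ^ k`
vertices, then its basis number is at most `10 k + 1`. -/
theorem log_clique (V : Type) [Fintype V] (G : SimpleGraph V) (D : TreeDecomp G) (k : ℕ)
    (hD : CS.CliqueAdhesions D) (hk : ∀ x, (D.bag x).card ≤ 2 ^ k) :
    basisNumber G ≤ 10 * k + 1 :=
  cliqueAdhesions_log log_all G D k hD hk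

end Pool.MP_35885f.LG
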