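import Pool.Agent.Lib.MP_35885f_co.Final

/-!
# The basis number is at most `5 log₂ n`

Plan (paper proof by helper67). Let `G` be a graph with `n ≤ 2 ^ k` vertices.

1. `GIR`: a loopless multigraph all of whose degrees are at least three has a nonempty even edge set
   with at most `2 k` edges (breadth first search).
2. `WB`: for nonnegative weights `w` of the edges of a multigraph its cycle space is generated by a
   set of vectors of total weight at most `2 k · w(E)`. Induction on the number of edges: delete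
   bridges, contract one of two edges in series (and add its weight to the other one), otherwise take
   a short even set `z` (`GIR`, or a loop) and delete its heaviest edge.
3. `WBG`: the same for the cycle space of a simple graph, with a cycle basis.
4. `MMX`: minimax: so there are probabilities `p B` of the cycle bases `B` with expected ply at most
   `2 k` at every edge.
5. `SWP`: rounding by basis exchange: some cycle basis `B` has
   `∑ₑ 2 ^ ply e B ≤ ∑ₑ ∏_{z ∋ e} (1 + x z)`, `x z = ∑_{B ∋ z} p B`, because the right hand side is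
   concave in the directions `1_c - 1_c'`.
6. `EXC`: symmetric basis exchange.
7. `FIN`: `∏ (1 + x z) ≤ exp (2 k) ≤ 8 ^ k`, so `2 ^ ply e B ≤ |E| 8 ^ k < 2 ^ (5 k)`.
-/

open Finset

namespace Pool.MP_35885f.LG

open scoped Classical

/-- The number (mod 2) of ends of the edge `i` at the vertex `v`. -/
noncomputable def inc {ι V : Type} (a b : ι → V) (i : ι) (v : V) : ZMod 2 :=
  (if a i = v then 1 else 0) + (if b i = v then 1 else 0)

/-- Row GIR: short even sets. -/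
def GIR : Prop := ∀ (ι V : Type) [Fintype V] (E : Finset ι) (a b : ι → V) (k : ℕ), 1 ≤ k →
  Fintype.card V ≤ 2 ^ k → E.Nonempty → (∀ i ∈ E, a i ≠ b i) →
  (∀ i ∈ E, ∀ v, (a i = v ∨ b i = v) → 3 ≤ (E.filter fun j => a j = v ∨ b j = v).card) →
  ∃ z ⊆ E, z.Nonempty ∧ (∀ v, ∑ i ∈ z, inc a b i v = 0) ∧ z.card ≤ 2 * k

/-- The cycle space of the multigraph with edge set `E` and ends `a`, `b`. -/
noncomputable def Zs {ι V : Type} (E : Finset ι) (a b : ι → V) :
    Submodule (ZMod 2) (ι → ZMod 2) where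
  carrier := {f | (∀ i, i ∉ E → f i = 0) ∧ ∀ v, ∑ i ∈ E, f i * inc a b i v = 0}
  zero_mem' := by simp
  add_mem' := by
    rintro f g ⟨hf1, hf2⟩ ⟨hg1, hg2⟩
    refine ⟨fun e he => ?_, fun v => ?_⟩
    · rw [Pi.add_apply, hf1 e he, hg1 e he, add_zero]
    · simp only [Pi.add_apply, add_mul, Finset.sum_add_distrib]
      rw [hf2 v, hg2 v, add_zero]
  smul_mem' := by
    rintro c f ⟨hf1, hf2⟩
    refine ⟨fun e he => ?_, fun v => ?_⟩
    · rw [Pi.smul_apply, hf1 e he, smul_zero]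
    · simp only [Pi.smul_apply, smul_eq_mul, mul_assoc, ← Finset.mul_sum]
      rw [hf2 v, mul_zero]

/-- Row WB: cheap generating sets of the cycle space of a weighted multigraph. -/
def WB : Prop := ∀ (ι V : Type) [Fintype V] (k : ℕ), 1 ≤ k → Fintype.card V ≤ 2 ^ k →
  ∀ (E : Finset ι) (a b : ι → V) (w : ι → ℝ), (∀ i, 0 ≤ w i) →
  ∃ S : Finset (ι → ZMod 2), (∀ z ∈ S, z ∈ Zs E a b) ∧
    Zs E a b ≤ Submodule.span (ZMod 2) (S : Set (ι → ZMod 2)) ∧
    ∑ z ∈ S, ∑ i ∈ E, (if z i ≠ 0 then w i else 0) ≤ (2 * k : ℝ) * ∑ i ∈ E, w i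

/-- Row WBG: cheap cycle bases of a weighted graph. -/
def WBG : Prop := ∀ (V : Type) [Fintype V] (G : SimpleGraph V) (k : ℕ), 1 ≤ k →
  Fintype.card V ≤ 2 ^ k → ∀ w : Sym2 V → ℝ, (∀ e, 0 ≤ w e) →
  ∃ B : Finset (Sym2 V → ZMod 2), IsCycleBasis G B ∧
    ∑ e with e ∈ G.edgeSet, w e * (ply e B : ℝ) ≤ (2 * k : ℝ) * ∑ e with e ∈ G.edgeSet, w e

/-- Row MMX: minimax. -/
def MMX : Prop := ∀ (E I : Type) [Fintype E] [Fintype I] (P : I → Prop) (ld : I → E → ℝ) (L : ℝ),
  (∀ w : E → ℝ, (∀ e, 0 ≤ w e) → ∃ i, P i ∧ ∑ e, w e * ld i e ≤ L * ∑ e, w e) →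
  ∃ p : I → ℝ, (∀ i, 0 ≤ p i) ∧ (∀ i, p i ≠ 0 → P i) ∧ ∑ i, p i = 1 ∧
    ∀ e, ∑ i, p i * ld i e ≤ L

/-- Symmetric exchange. -/
def Exch {Ω : Type} (Bs : Finset Ω → Prop) : Prop :=
  ∀ B₁ B₂, Bs B₁ → Bs B₂ → ∀ c ∈ B₁ \ B₂, ∃ c' ∈ B₂ \ B₁,
    Bs (insert c' (B₁.erase c)) ∧ Bs (insert c (B₂.erase c'))

/-- Row SWP: rounding by exchanges. -/
def SWP : Prop := ∀ (Ω E : Type) [Fintype Ω] [Fintype E] (r : Ω → E → Prop)
  (Bs : Finset Ω → Prop), Exch Bs → ∀ p : Finset Ω → ℝ, (∀ B, 0 ≤ p B) →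
  (∀ B, p B ≠ 0 → Bs B) → ∑ B, p B = 1 →
  ∃ B, Bs B ∧ ∑ e, (2 : ℝ) ^ (B.filter fun z => r z e).card ≤
    ∑ e, ∏ z with r z e, (1 + ∑ B with z ∈ B, p B)

/-- Row EXC: the bases of the cycle space have the symmetric exchange property. -/
def EXC : Prop := ∀ (V : Type) [Fintype V] (G : SimpleGraph V),
  Exch fun B : Finset (Sym2 V → ZMod 2) => IsCycleBasis G B

/-- Row FIN. -/
def FIN : Prop := WBG → MMX → SWP → EXC → ∀ (V : Type) [Fintype V] (G : SimpleGraph V),
  basisNumber G ≤ 5 * Nat.clog 2 (Fintype.card V)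

end Pool.MP_35885f.LG
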