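import Pool.Agent.Lib.MP_35885f_lg.TStat
import Pool.Agent.Lib.MP_35885f_lg.WBG
import Pool.Agent.Lib.MP_35885f_lg.FIN

/-!
# Row TFR: the fractional basis number of graphs of small treewidth
-/

open Finset

namespace Pool.MP_35885f.LG

open scoped Classical

lemma tfr_basis {V : Type} [Fintype V] (G : SimpleGraph V) (S : Finset (Sym2 V → ZMod 2))
    (hS : Submodule.span (ZMod 2) (S : Set (Sym2 V → ZMod 2)) = cycleSpace G)
    (w : Sym2 V → ℝ) (hw : ∀ e, 0 ≤ w e) (L : ℝ)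
    (hS3 : ∑ z ∈ S, ∑ i with i ∈ G.edgeSet, (if z i ≠ 0 then w i else 0) ≤ L) :
    ∃ B : Finset (Sym2 V → ZMod 2), IsCycleBasis G B ∧
      ∑ e with e ∈ G.edgeSet, w e * (ply e B : ℝ) ≤ L := by
  obtain ⟨b, hb1, hb2, hb3⟩ := exists_linearIndependent (ZMod 2) (S : Set (Sym2 V → ZMod 2))
  have hfin : b.Finite := S.finite_toSet.subset hb1
  have hcoe : (hfin.toFinset : Set (Sym2 V → ZMod 2)) = b := hfin.coe_toFinset
  have hsub : hfin.toFinset ⊆ S := fun x hx => hb1 (hfin.mem_toFinset.1 hx)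
  refine ⟨hfin.toFinset, ⟨?_, ?_⟩, ?_⟩
  · have h1 : ∀ x, x ∈ hfin.toFinset ↔ x ∈ b := fun x => hfin.mem_toFinset
    have h2 := hb3.comp (fun x : hfin.toFinset => (⟨x.1, (h1 x.1).1 x.2⟩ : b)) (by
      intro x y h
      simp only [Subtype.mk.injEq] at h
      exact Subtype.ext h)
    exact h2
  · rw [hcoe, hb2, hS]
  · refine le_trans ?_ hS3
    have h1 : ∑ e with e ∈ G.edgeSet, w e * (ply e hfin.toFinset : ℝ) =
        ∑ z ∈ hfin.toFinset, ∑ i with i ∈ G.edgeSet, (if z i ≠ 0 then w i else 0) := by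
      rw [sum_comm]
      refine sum_congr rfl fun e _ => ?_
      unfold ply
      rw [← sum_filter, sum_const, nsmul_eq_mul, mul_comm]
    rw [h1]
    refine sum_le_sum_of_subset_of_nonneg hsub fun z _ _ => sum_nonneg fun i _ => ?_
    split_ifs
    · exact hw i
    · exact le_refl _

lemma tfr_sum (hS : SWP) {Ω E : Type} [Fintype Ω] [Fintype E] (r : Ω → E → Prop)
    (Bs : Finset Ω → Prop) (hE : Exch Bs) (p : Finset Ω → ℝ) (hp0 : ∀ B, 0 ≤ p B)
    (hpP : ∀ B, p B ≠ 0 → Bs B) (hp1 : ∑ B, p B = 1) (L : ℝ)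
    (hL : ∀ e, ∑ B, p B * ((B.filter fun z => r z e).card : ℝ) ≤ L) :
    ∃ B, Bs B ∧ ∑ e, (2 : ℝ) ^ (B.filter fun z => r z e).card ≤
      (Fintype.card E : ℝ) * Real.exp L := by
  obtain ⟨B, hB, hsum⟩ := hS Ω E r Bs hE p hp0 hpP hp1
  have key : ∀ e : E, ∏ z with r z e, (1 + ∑ B with z ∈ B, p B) ≤ Real.exp L := by
    intro e
    have hx : ∀ z : Ω, 0 ≤ ∑ B with z ∈ B, p B :=
      fun z => Finset.sum_nonneg fun B _ => hp0 B
    calc ∏ z with r z e, (1 + ∑ B with z ∈ B, p B)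
        ≤ ∏ z with r z e, Real.exp (∑ B with z ∈ B, p B) := by
          refine Finset.prod_le_prod (fun z _ => by linarith [hx z]) fun z _ => ?_
          rw [add_comm]
          exact Real.add_one_le_exp _
      _ = Real.exp (∑ z with r z e, ∑ B with z ∈ B, p B) := by
          rw [Real.exp_sum]
      _ ≤ Real.exp L := by
          rw [load_swap]
          exact Real.exp_le_exp.2 (hL e)
  refine ⟨B, hB, ?_⟩
  calc ∑ e, (2 : ℝ) ^ (B.filter fun z => r z e).card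
      ≤ ∑ e, ∏ z with r z e, (1 + ∑ B with z ∈ B, p B) := hsum
    _ ≤ ∑ _e : E, Real.exp L := Finset.sum_le_sum fun e _ => key e
    _ = (Fintype.card E : ℝ) * Real.exp L := by
        rw [Finset.sum_const, Finset.card_univ, nsmul_eq_mul]

theorem tfr : TFR := by
  intro hT hD hM hS hE V _ G κ hκ
  obtain ⟨D, hDk⟩ := Nat.sInf_mem (exists_treeDecomp G)
  have hBD := hD V G D (treewidth G) hDk
  have hW : ∀ w : Sym2 V → ℝ, (∀ e, 0 ≤ w e) → ∃ B : Finset (Sym2 V → ZMod 2),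
      IsCycleBasis G B ∧ ∑ e with e ∈ G.edgeSet, w e * (ply e B : ℝ) ≤
        (8 * κ : ℝ) * ∑ e with e ∈ G.edgeSet, w e := by
    intro w hw
    obtain ⟨S, hS1, hS2, hS3⟩ := hT (Sym2 V) V κ (treewidth G + 1) (by omega) hκ _ _ _ w hw hBD
    have hSp : Submodule.span (ZMod 2) (S : Set (Sym2 V → ZMod 2)) = cycleSpace G := by
      rw [← wbg_Zs G]
      exact le_antisymm (Submodule.span_le.2 fun z hz => hS1 z hz) hS2
    exact tfr_basis G S hSp w hw _ hS3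
  obtain ⟨p, hp0, hpP, hp1, hpL⟩ := hM {e : Sym2 V // e ∈ G.edgeSet}
    (Finset (Sym2 V → ZMod 2)) (fun B => IsCycleBasis G B) (fun B e => (ply e.1 B : ℝ))
    (8 * κ : ℝ) (fun w hw => by
      obtain ⟨B, hB, hBw⟩ := hW
        (fun e => if h : e ∈ G.edgeSet then w ⟨e, h⟩ else 0)
        (fun e => by split_ifs with h; exacts [hw _, le_rfl])
      refine ⟨B, hB, ?_⟩
      have q1 := sum_edges G w fun e => (ply e B : ℝ)
      have q2 := sum_edges G w fun _ => 1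
      simp only [mul_one] at q2
      rw [q1, q2] at hBw
      exact hBw)
  refine ⟨⟨p, hp0, hpP, hp1, fun e he => hpL ⟨e, he⟩⟩, ?_⟩
  obtain ⟨B, hB, hpl⟩ := tfr_sum hS (E := {e : Sym2 V // e ∈ G.edgeSet})
    (fun (z : Sym2 V → ZMod 2) e => z e.1 ≠ 0) (fun B => IsCycleBasis G B) (hE V G) p hp0 hpP hp1
    (8 * κ : ℝ) (fun e => by
      refine le_of_eq_of_le (Finset.sum_congr rfl fun B _ => ?_) (hpL e)
      rw [ply_eq e.1 B _ fun z => Iff.rfl])
  refine ⟨B, hB, ?_⟩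
  have hpl' : ∑ e : {e : Sym2 V // e ∈ G.edgeSet}, (2 : ℝ) ^ ply e.1 B ≤
      (Fintype.card {e : Sym2 V // e ∈ G.edgeSet} : ℝ) * Real.exp (8 * κ : ℝ) := by
    refine le_of_eq_of_le (Finset.sum_congr rfl fun e _ => ?_) hpl
    rw [ply_eq e.1 B _ fun z => Iff.rfl]
  have h1 : ∑ e : {e : Sym2 V // e ∈ G.edgeSet}, (2 : ℝ) ^ ply e.1 B =
      ∑ e with e ∈ G.edgeSet, (2 : ℝ) ^ ply e B := by
    rw [Finset.sum_subtype (p := fun e => e ∈ G.edgeSet) _ (fun x => by simp)]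
  have h2 : Real.exp (8 * κ : ℝ) ≤ 2 ^ (12 * κ) := by
    have h3 := exp_le (4 * κ)
    have h4 : (2 * ((4 * κ : ℕ) : ℝ) : ℝ) = 8 * κ := by push_cast; ring
    have h5 : (8 : ℝ) ^ (4 * κ) = 2 ^ (12 * κ) := by
      rw [show (8 : ℝ) = 2 ^ 3 by norm_num, ← pow_mul]
      congr 1
      ring
    rw [h4, h5] at h3
    exact h3
  have h3 : ∑ e with e ∈ G.edgeSet, (2 : ℝ) ^ ply e B ≤
      (2 : ℝ) ^ (12 * κ) * (Nat.card G.edgeSet : ℝ) := by
    rw [← h1, mul_comm]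
    refine hpl'.trans ?_
    have h6 : Nat.card G.edgeSet = Fintype.card {e : Sym2 V // e ∈ G.edgeSet} :=
      Nat.card_eq_fintype_card
    rw [h6]
    exact mul_le_mul_of_nonneg_left h2 (Nat.cast_nonneg _)
  exact_mod_cast h3

end Pool.MP_35885f.LG
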