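import Pool.Agent.Lib.MP_35885f_lg.TFR
import Pool.Agent.Lib.MP_35885f_lg.SWPW

/-!
# Row TFR2: random cycle bases with exponential moments at every edge
-/

open Finset

namespace Pool.MP_35885f.LG

open scoped Classical

lemma tfr2_sum (hS : SWPW) {Ω E : Type} [Fintype Ω] [Fintype E] (r : Ω → E → Prop)
    (μ : E → ℝ) (hμ : ∀ e, 0 ≤ μ e)
    (Bs : Finset Ω → Prop) (hE : Exch Bs) (p : Finset Ω → ℝ) (hp0 : ∀ B, 0 ≤ p B)
    (hpP : ∀ B, p B ≠ 0 → Bs B) (hp1 : ∑ B, p B = 1) (L : ℝ)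
    (hL : ∀ e, ∑ B, p B * ((B.filter fun z => r z e).card : ℝ) ≤ L) :
    ∃ B, Bs B ∧ ∑ e, μ e * (2 : ℝ) ^ (B.filter fun z => r z e).card ≤
      Real.exp L * ∑ e, μ e := by
  obtain ⟨B, hB, hsum⟩ := hS Ω E r μ Bs hμ hE p hp0 hpP hp1
  have key : ∀ e : E, ∏ z with r z e, (1 + ∑ B with z ∈ B, p B) ≤ Real.exp L := by
    intro e
    have hx : ∀ z : Ω, 0 ≤ ∑ B with z ∈ B, p B :=
      fun z => Finset.sum_nonneg fun B _ => hp0 B
    calc ∏ z with r z e, (1 + ∑ B with z ∈ B, p B)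
        ≤ ∏ z with r z e, Real.exp (∑ B with z ∈ B, p B) := by
          refine Finset.prod_le_prod (fun z _ => by linarith [hx z]) fun z _ => ?_
          rw [add_comm]
          exact Real.add_one_le_exp _
      _ = Real.exp (∑ z with r z e, ∑ B with z ∈ B, p B) := by
          rw [Real.exp_sum]
      _ ≤ Real.exp L := by
          rw [load_swap]
          exact Real.exp_le_exp.2 (hL e)
  refine ⟨B, hB, ?_⟩
  calc ∑ e, μ e * (2 : ℝ) ^ (B.filter fun z => r z e).card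
      ≤ ∑ e, μ e * ∏ z with r z e, (1 + ∑ B with z ∈ B, p B) := hsum
    _ ≤ ∑ e : E, μ e * Real.exp L :=
        Finset.sum_le_sum fun e _ => mul_le_mul_of_nonneg_left (key e) (hμ e)
    _ = Real.exp L * ∑ e, μ e := by
        rw [← Finset.sum_mul, mul_comm]

/-- Random cycle bases with exponential moments at every edge. -/
theorem tfr2 : WBT → BDT → MMX → SWPW → EXC → ∀ (V : Type) [Fintype V] (G : SimpleGraph V)
    (κ : ℕ), 24 * (treewidth G + 1) ≤ 2 ^ κ →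
    ∃ p : Finset (Sym2 V → ZMod 2) → ℝ, (∀ B, 0 ≤ p B) ∧ (∀ B, p B ≠ 0 → IsCycleBasis G B) ∧
      ∑ B, p B = 1 ∧ ∀ e ∈ G.edgeSet, ∑ B, p B * 2 ^ ply e B ≤ 2 ^ (12 * κ) := by
  intro hT hD hM hS hE V _ G κ hκ
  obtain ⟨D, hDk⟩ := Nat.sInf_mem (exists_treeDecomp G)
  have hBD := hD V G D (treewidth G) hDk
  have hW : ∀ w : Sym2 V → ℝ, (∀ e, 0 ≤ w e) → ∃ B : Finset (Sym2 V → ZMod 2),
      IsCycleBasis G B ∧ ∑ e with e ∈ G.edgeSet, w e * (ply e B : ℝ) ≤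
        (8 * κ : ℝ) * ∑ e with e ∈ G.edgeSet, w e := by
    intro w hw
    obtain ⟨S, hS1, hS2, hS3⟩ := hT (Sym2 V) V κ (treewidth G + 1) (by omega) hκ _ _ _ w hw hBD
    have hSp : Submodule.span (ZMod 2) (S : Set (Sym2 V → ZMod 2)) = cycleSpace G := by
      rw [← wbg_Zs G]
      exact le_antisymm (Submodule.span_le.2 fun z hz => hS1 z hz) hS2
    exact tfr_basis G S hSp w hw _ hS3
  obtain ⟨p, hp0, hpP, hp1, hpL⟩ := hM {e : Sym2 V // e ∈ G.edgeSet}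
    (Finset (Sym2 V → ZMod 2)) (fun B => IsCycleBasis G B) (fun B e => (ply e.1 B : ℝ))
    (8 * κ : ℝ) (fun w hw => by
      obtain ⟨B, hB, hBw⟩ := hW
        (fun e => if h : e ∈ G.edgeSet then w ⟨e, h⟩ else 0)
        (fun e => by split_ifs with h; exacts [hw _, le_rfl])
      refine ⟨B, hB, ?_⟩
      have q1 := sum_edges G w fun e => (ply e B : ℝ)
      have q2 := sum_edges G w fun _ => 1
      simp only [mul_one] at q2
      rw [q1, q2] at hBw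
      exact hBw)
  have h2 : Real.exp (8 * κ : ℝ) ≤ 2 ^ (12 * κ) := by
    have h3 := exp_le (4 * κ)
    have h4 : (2 * ((4 * κ : ℕ) : ℝ) : ℝ) = 8 * κ := by push_cast; ring
    have h5 : (8 : ℝ) ^ (4 * κ) = 2 ^ (12 * κ) := by
      rw [show (8 : ℝ) = 2 ^ 3 by norm_num, ← pow_mul]
      congr 1
      ring
    rw [h4, h5] at h3
    exact h3
  obtain ⟨q, hq0, hqP, hq1, hqL⟩ := hM {e : Sym2 V // e ∈ G.edgeSet}
    (Finset (Sym2 V → ZMod 2)) (fun B => IsCycleBasis G B) (fun B e => (2 : ℝ) ^ ply e.1 B)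
    ((2 : ℝ) ^ (12 * κ)) (fun w hw => by
      obtain ⟨B, hB, hpl⟩ := tfr2_sum hS (E := {e : Sym2 V // e ∈ G.edgeSet})
        (fun (z : Sym2 V → ZMod 2) e => z e.1 ≠ 0) w hw (fun B => IsCycleBasis G B) (hE V G)
        p hp0 hpP hp1 (8 * κ : ℝ) (fun e => by
          refine le_of_eq_of_le (Finset.sum_congr rfl fun B _ => ?_) (hpL e)
          rw [ply_eq e.1 B _ fun z => Iff.rfl])
      refine ⟨B, hB, ?_⟩
      refine le_trans (le_of_eq_of_le (Finset.sum_congr rfl fun e _ => ?_) hpl)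
        (mul_le_mul_of_nonneg_right h2 (Finset.sum_nonneg fun e _ => hw e))
      rw [ply_eq e.1 B _ fun z => Iff.rfl])
  exact ⟨q, hq0, hqP, hq1, fun e he => hqL ⟨e, he⟩⟩

end Pool.MP_35885f.LG
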