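import Pool.Agent.Lib.MP_35885f_lg.GIR
import Pool.Agent.Lib.MP_35885f_lg.WB
import Pool.Agent.Lib.MP_35885f_lg.WBG
import Pool.Agent.Lib.MP_35885f_lg.MMX
import Pool.Agent.Lib.MP_35885f_lg.SWP
import Pool.Agent.Lib.MP_35885f_lg.EXC
import Pool.Agent.Lib.MP_35885f_lg.FIN
import Pool.Agent.Lib.MP_35885f_lg.BDC
import Pool.Agent.Lib.MP_35885f_lg.BDE
import Pool.Agent.Lib.MP_35885f_lg.BDS
import Pool.Agent.Lib.MP_35885f_lg.BDT
import Pool.Agent.Lib.MP_35885f_lg.WBT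
import Pool.Agent.Lib.MP_35885f_lg.TFR

/-!
# The fractional basis number of a graph of treewidth `k` is `O(log k)`
-/

namespace Pool.MP_35885f.LG

open scoped Classical

theorem tfinal (V : Type) [Fintype V] (G : SimpleGraph V) (κ : ℕ)
    (hκ : 24 * (treewidth G + 1) ≤ 2 ^ κ) :
    (∃ p : Finset (Sym2 V → ZMod 2) → ℝ, (∀ B, 0 ≤ p B) ∧ (∀ B, p B ≠ 0 → IsCycleBasis G B) ∧
      ∑ B, p B = 1 ∧ ∀ e ∈ G.edgeSet, ∑ B, p B * (ply e B : ℝ) ≤ 8 * κ) ∧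
    ∃ B : Finset (Sym2 V → ZMod 2), IsCycleBasis G B ∧
      ∑ e with e ∈ G.edgeSet, 2 ^ ply e B ≤ 2 ^ (12 * κ) * Nat.card G.edgeSet :=
  tfr (wbt gir (cnt (wb gir)) bde bdc bds) bdt mmx swp exc V G κ hκ

end Pool.MP_35885f.LG
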