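import Pool.Agent.Lib.MP_35885f_lg.Stat

/-!
# Cheap cycle bases and the fractional basis number for graphs of small treewidth

Plan (helper95).  `BD E a b t K`: the edge set `K` (of the multigraph `E`) is obtained from single
edges by unions of two, all of whose results have at most `t` boundary vertices (a branch
decomposition of width `t`).  This is inherited by deletion and contraction.

1. `BDE`, `BDC`: `BD` is inherited by deletion and by contraction of an edge.
2. `BDS`: `BD K` and at least `M ≥ 3` vertices: there is a part with at least `M` and at most `2 M`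
   vertices and at most `t` boundary vertices.
3. `CNT`: in a loopless multigraph in which all but `t` vertices have degree at least three and which
   has between `12 t` and `2 ^ κ` vertices there is a nonzero cycle of length at most `8 κ`
   (row `WB` with unit weights and dimension counting).
4. `WBT`: so the cycle space of a weighted multigraph with `BD` is generated by vectors of total
   weight at most `8 κ w(E)`, `24 t ≤ 2 ^ κ`.
5. `BDT`: the edges of a graph with a tree decomposition of width `k` satisfy `BD` with `t = k + 1`.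
6. `TFR`: minimax and rounding.
-/

open Finset

namespace Pool.MP_35885f.LG

open scoped Classical

/-- The vertices which are ends of edges in `K`. -/
noncomputable def Vx {ι V : Type} (a b : ι → V) (K : Finset ι) : Finset V := K.image a ∪ K.image b

/-- The boundary of `K` in `E`. -/
noncomputable def bdry {ι V : Type} (E : Finset ι) (a b : ι → V) (K : Finset ι) : Finset V :=
  Vx a b K ∩ Vx a b (E \ K)

/-- `K` has a branch decomposition of width at most `t` in `E`. -/
inductive BD {ι V : Type} (E : Finset ι) (a b : ι → V) (t : ℕ) : Finset ι → Prop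
  | leaf (K : Finset ι) (h : K.card ≤ 1) : BD E a b t K
  | node (K₁ K₂ : Finset ι) (h₁ : BD E a b t K₁) (h₂ : BD E a b t K₂)
      (h : (bdry E a b (K₁ ∪ K₂)).card ≤ t) : BD E a b t (K₁ ∪ K₂)

/-- Row BDE: deletion. -/
def BDE : Prop := ∀ (ι V : Type) (E : Finset ι) (a b : ι → V) (t : ℕ) (K : Finset ι) (j : ι),
  BD E a b t K → BD (E.erase j) a b t (K.erase j)

/-- Row BDC: contraction (`b j` is identified with `a j`). -/
def BDC : Prop := ∀ (ι V : Type) (E : Finset ι) (a b : ι → V) (t : ℕ) (K : Finset ι) (j : ι),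
  j ∈ E → BD E a b t K →
    BD (E.erase j) ((fun v => if v = b j then a j else v) ∘ a)
      ((fun v => if v = b j then a j else v) ∘ b) t (K.erase j)

/-- Row BDS: a part of prescribed size. -/
def BDS : Prop := ∀ (ι V : Type) (E : Finset ι) (a b : ι → V) (t M : ℕ) (K : Finset ι), 3 ≤ M →
  BD E a b t K → M ≤ (Vx a b K).card →
  ∃ K' ⊆ K, M ≤ (Vx a b K').card ∧ (Vx a b K').card ≤ 2 * M ∧ (bdry E a b K').card ≤ t

/-- Row CNT: a short cycle by counting. -/
def CNT : Prop := ∀ (ι V : Type) (K : Finset ι) (a b : ι → V) (κ t : ℕ), 1 ≤ κ → 1 ≤ t →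
  12 * t ≤ (Vx a b K).card → (Vx a b K).card ≤ 2 ^ κ → (∀ i ∈ K, a i ≠ b i) →
  ∀ B : Finset V, B.card ≤ t →
  (∀ i ∈ K, ∀ v, v ∉ B → (a i = v ∨ b i = v) → 3 ≤ (K.filter fun j => a j = v ∨ b j = v).card) →
  ∃ z ∈ Zs K a b, (∃ i ∈ K, z i ≠ 0) ∧ (K.filter fun i => z i ≠ 0).card ≤ 8 * κ

/-- Row WBT: cheap generating sets of the cycle space of a weighted multigraph with a branch
decomposition. -/
def WBT : Prop := ∀ (ι V : Type) (κ t : ℕ), 1 ≤ t → 24 * t ≤ 2 ^ κ →
  ∀ (E : Finset ι) (a b : ι → V) (w : ι → ℝ), (∀ i, 0 ≤ w i) → BD E a b t E →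
  ∃ S : Finset (ι → ZMod 2), (∀ z ∈ S, z ∈ Zs E a b) ∧
    Zs E a b ≤ Submodule.span (ZMod 2) (S : Set (ι → ZMod 2)) ∧
    ∑ z ∈ S, ∑ i ∈ E, (if z i ≠ 0 then w i else 0) ≤ (8 * κ : ℝ) * ∑ i ∈ E, w i

/-- Row BDT: tree decompositions. -/
def BDT : Prop := ∀ (V : Type) [Fintype V] (G : SimpleGraph V) (D : TreeDecomp G) (k : ℕ),
  (∀ x, (D.bag x).card ≤ k + 1) →
    BD (univ.filter fun e : Sym2 V => e ∈ G.edgeSet) (fun e : Sym2 V => (Quot.out e).1)
      (fun e : Sym2 V => (Quot.out e).2) (k + 1) (univ.filter fun e : Sym2 V => e ∈ G.edgeSet)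

/-- Row TFR: the fractional basis number of a graph of treewidth `k` is `O(log k)`, and the linear
bound holds for most of the edges. -/
def TFR : Prop := WBT → BDT → MMX → SWP → EXC → ∀ (V : Type) [Fintype V] (G : SimpleGraph V)
  (κ : ℕ), 24 * (treewidth G + 1) ≤ 2 ^ κ →
  (∃ p : Finset (Sym2 V → ZMod 2) → ℝ, (∀ B, 0 ≤ p B) ∧ (∀ B, p B ≠ 0 → IsCycleBasis G B) ∧
    ∑ B, p B = 1 ∧ ∀ e ∈ G.edgeSet, ∑ B, p B * (ply e B : ℝ) ≤ 8 * κ) ∧
  ∃ B : Finset (Sym2 V → ZMod 2), IsCycleBasis G B ∧
    ∑ e with e ∈ G.edgeSet, 2 ^ ply e B ≤ 2 ^ (12 * κ) * Nat.card G.edgeSet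

end Pool.MP_35885f.LG
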