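import Pool.Agent.Lib.MP_35885f_lg.CNT

/-!
# Row WBT: cheap generating sets of the cycle space of a weighted multigraph with a branch
decomposition
-/

open Finset

namespace Pool.MP_35885f.LG

open scoped Classical

variable {ι V : Type}

/-- Degrees are at least three if there are no bridges, no two edges in series and no loops. -/
theorem deg_three {E : Finset ι} {a b : ι → V}
    (hc1 : ∀ i ∈ E, ∃ z ∈ Zs E a b, z i ≠ 0)
    (hc2 : ∀ i ∈ E, ∀ j ∈ E, i ≠ j → ∃ z ∈ Zs E a b, z i ≠ z j)
    (hloop : ∀ i ∈ E, a i ≠ b i) :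
    ∀ i ∈ E, ∀ v, (a i = v ∨ b i = v) → 3 ≤ (E.filter fun j => a j = v ∨ b j = v).card := by
  intro i hi v hv
  set F := E.filter fun j => a j = v ∨ b j = v with hF
  have hiF : i ∈ F := Finset.mem_filter.2 ⟨hi, hv⟩
  have hsum : ∀ z ∈ Zs E a b, ∑ m ∈ F, z m = 0 := by
    intro z hz
    have h2 := (Zs_mem.1 hz).2 v
    rw [← h2, hF, Finset.sum_filter]
    refine Finset.sum_congr rfl fun m hm => ?_
    by_cases hmv : a m = v ∨ b m = v
    · rw [if_pos hmv]
      have : inc a b m v = 1 := by
        rcases hmv with h | h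
        · rw [← h]; exact inc_self_a (hloop m hm)
        · rw [← h]; exact inc_self_b (hloop m hm)
      rw [this, mul_one]
    · rw [if_neg hmv]
      push Not at hmv
      rw [inc_self_other (Ne.symm hmv.1) (Ne.symm hmv.2), mul_zero]
  by_contra hlt
  push Not at hlt
  by_cases hex : ∃ j ∈ F, j ≠ i
  · obtain ⟨j, hjF, hji⟩ := hex
    have hFeq : F = {i, j} := by
      symm
      refine Finset.eq_of_subset_of_card_le ?_ ?_
      · intro m hm
        rw [Finset.mem_insert, Finset.mem_singleton] at hm
        rcases hm with h | h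
        · rw [h]; exact hiF
        · rw [h]; exact hjF
      · rw [Finset.card_pair (Ne.symm hji)]
        omega
    obtain ⟨z, hz, hne⟩ := hc2 i hi j (Finset.mem_of_mem_filter j hjF) (Ne.symm hji)
    have := hsum z hz
    rw [hFeq, Finset.sum_pair (Ne.symm hji)] at this
    exact hne (zmod2_eq_of_add this)
  · push Not at hex
    have hFeq : F = {i} := Finset.eq_singleton_iff_unique_mem.2 ⟨hiF, hex⟩
    obtain ⟨z, hz, hne⟩ := hc1 i hi
    have := hsum z hz
    rw [hFeq, Finset.sum_singleton] at this
    exact hne this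

/-- Case 3: a short nonzero cycle. -/
theorem short_cycle_t (hG : GIR) (hC : CNT) (hS : BDS) {κ t : ℕ} (ht : 1 ≤ t)
    (hκt : 24 * t ≤ 2 ^ κ) {E : Finset ι} (hE : E.Nonempty) {a b : ι → V}
    (hBD : BD E a b t E)
    (hc1 : ∀ i ∈ E, ∃ z ∈ Zs E a b, z i ≠ 0)
    (hc2 : ∀ i ∈ E, ∀ j ∈ E, i ≠ j → ∃ z ∈ Zs E a b, z i ≠ z j) :
    ∃ z ∈ Zs E a b, (∃ i ∈ E, z i ≠ 0) ∧ (E.filter fun i => z i ≠ 0).card ≤ 8 * κ := by
  have hκ : 1 ≤ κ := by
    rcases Nat.eq_zero_or_pos κ with h | h
    · rw [h, pow_zero] at hκt; omega
    · exact h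
  by_cases hloop : ∃ i ∈ E, a i = b i
  · obtain ⟨i, hi, hab⟩ := hloop
    refine ⟨_, single_mem hi hab, ⟨i, hi, by simp⟩, ?_⟩
    have : (E.filter fun m => (if m = i then (1 : ZMod 2) else 0) ≠ 0) ⊆ {i} := by
      intro m hm
      rw [Finset.mem_filter] at hm
      by_contra h
      rw [Finset.mem_singleton] at h
      exact hm.2 (if_neg h)
    calc _ ≤ ({i} : Finset ι).card := Finset.card_le_card this
      _ = 1 := Finset.card_singleton i
      _ ≤ 8 * κ := by omega
  · push Not at hloop
    have hdeg := deg_three hc1 hc2 hloop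
    by_cases hsmall : (Vx a b E).card ≤ 2 ^ κ
    · obtain ⟨i₀, hi₀⟩ := hE
      set v0 : {v // v ∈ Vx a b E} := ⟨a i₀, Vx_a hi₀⟩ with hv0
      have hc : Fintype.card {v // v ∈ Vx a b E} ≤ 2 ^ κ := by
        rw [Fintype.card_coe]; exact hsmall
      obtain ⟨zf, hzE, hzne, hzb, hzc⟩ := hG ι {v // v ∈ Vx a b E} E (subm a b E v0 a)
        (subm a b E v0 b) κ hκ hc ⟨i₀, hi₀⟩ (by
          intro i hi
          rw [subm_a v0 hi, subm_b v0 hi]
          intro h
          exact hloop i hi (congrArg Subtype.val h)) (by
          intro i hi v hv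
          have hv' : a i = v.1 ∨ b i = v.1 := by
            rw [subm_a v0 hi, subm_b v0 hi] at hv
            rcases hv with h | h
            · exact Or.inl (congrArg Subtype.val h)
            · exact Or.inr (congrArg Subtype.val h)
          refine (hdeg i hi v.1 hv').trans (Finset.card_le_card ?_)
          intro m hm
          obtain ⟨hm1, hm2⟩ := Finset.mem_filter.1 hm
          simp only [Finset.mem_filter]
          refine ⟨hm1, ?_⟩
          rw [subm_a v0 hm1, subm_b v0 hm1]
          rcases hm2 with h | h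
          · exact Or.inl (Subtype.ext h)
          · exact Or.inr (Subtype.ext h))
      refine ⟨fun m => if m ∈ zf then 1 else 0, Zs_mem.2 ⟨fun m hm => if_neg fun h => hm (hzE h),
        fun v => ?_⟩, ?_, ?_⟩
      · simp only [ite_mul, one_mul, zero_mul]
        rw [← Finset.sum_filter, Finset.filter_mem_eq_inter, Finset.inter_eq_right.2 hzE]
        by_cases hv : v ∈ Vx a b E
        · refine Eq.trans ?_ (hzb ⟨v, hv⟩)
          refine Finset.sum_congr rfl fun m hm => ?_
          rw [inc_sub v0 (hzE hm)]
        · exact Finset.sum_eq_zero fun m hm => inc_out (hzE hm) hv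
      · obtain ⟨i, hi⟩ := hzne
        exact ⟨i, hzE hi, by simp [hi]⟩
      · refine le_trans (Finset.card_le_card ?_) (hzc.trans (by omega))
        intro m hm
        rw [Finset.mem_filter] at hm
        by_contra h
        exact hm.2 (if_neg h)
    · push Not at hsmall
      obtain ⟨K, hKE, hK1, hK2, hK3⟩ := hS ι V E a b t (12 * t) E (by omega) hBD (by omega)
      have hKB : ∀ i ∈ K, ∀ v, v ∉ bdry E a b K → (a i = v ∨ b i = v) →
          3 ≤ (K.filter fun j => a j = v ∨ b j = v).card := by
        intro i hi v hv hiv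
        refine (hdeg i (hKE hi) v hiv).trans (Finset.card_le_card ?_)
        intro m hm
        obtain ⟨hm1, hm2⟩ := Finset.mem_filter.1 hm
        refine Finset.mem_filter.2 ⟨?_, hm2⟩
        by_contra hmK
        apply hv
        unfold bdry
        rw [Finset.mem_inter]
        exact ⟨mem_Vx.2 ⟨i, hi, hiv⟩, mem_Vx.2 ⟨m, Finset.mem_sdiff.2 ⟨hm1, hmK⟩, hm2⟩⟩
      obtain ⟨z, hz, ⟨i, hi, hzi⟩, hzc⟩ := hC ι V K a b κ t hκ ht hK1 (by omega)
        (fun i hi => hloop i (hKE hi)) (bdry E a b K) hK3 hKB
      obtain ⟨h1, h2⟩ := Zs_mem.1 hz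
      refine ⟨z, Zs_mem.2 ⟨fun m hm => h1 m fun h => hm (hKE h), fun v => ?_⟩,
        ⟨i, hKE hi, hzi⟩, le_trans (Finset.card_le_card ?_) hzc⟩
      · rw [← h2 v]
        symm
        refine Finset.sum_subset hKE fun m _ hm => ?_
        rw [h1 m hm, zero_mul]
      · intro m hm
        obtain ⟨_, hm2⟩ := Finset.mem_filter.1 hm
        refine Finset.mem_filter.2 ⟨?_, hm2⟩
        by_contra hmK
        exact hm2 (h1 m hmK)

/-- Row WBT -/
theorem wbt (hG : GIR) (hC : CNT) (hDel : BDE) (hCon : BDC) (hS : BDS) : WBT := by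
  intro ι V κ t ht hκt E
  induction hn : E.card generalizing E with
  | zero =>
    intro a b w hw _
    have hE : E = ∅ := Finset.card_eq_zero.1 hn
    subst hE
    refine ⟨∅, by simp, ?_, by simp⟩
    intro f hf
    have : f = 0 := funext fun i => (Zs_mem.1 hf).1 i (Finset.notMem_empty i)
    rw [this]
    exact Submodule.zero_mem _
  | succ n ih =>
    intro a b w hw hBD
    have hE : E.Nonempty := Finset.card_pos.1 (by omega)
    have hcard : ∀ i ∈ E, (E.erase i).card = n := fun i hi => by
      rw [Finset.card_erase_of_mem hi, hn]; rfl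
    have h2k : (0 : ℝ) ≤ 8 * κ := by positivity
    by_cases hc1 : ∃ i ∈ E, ∀ z ∈ Zs E a b, z i = 0
    · obtain ⟨i, hi, h0⟩ := hc1
      obtain ⟨S, hS1, hS2, hS3⟩ := ih (E.erase i) (hcard i hi) a b w hw
        (hDel ι V E a b t E i hBD)
      refine ⟨S, fun z hz => Zs_erase_le hi (hS1 z hz), fun f hf =>
        hS2 (Zs_erase_mem hi hf (h0 f hf)), ?_⟩
      calc ∑ z ∈ S, ∑ i ∈ E, (if z i ≠ 0 then w i else 0)
          = ∑ z ∈ S, ∑ i ∈ E.erase i, (if z i ≠ 0 then w i else 0) := by
            refine Finset.sum_congr rfl fun z hz => ?_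
            exact wt_erase w hi (h0 z (Zs_erase_le hi (hS1 z hz)))
        _ ≤ (8 * κ : ℝ) * ∑ i ∈ E.erase i, w i := hS3
        _ ≤ (8 * κ : ℝ) * ∑ i ∈ E, w i := by
            refine mul_le_mul_of_nonneg_left ?_ h2k
            exact Finset.sum_le_sum_of_subset_of_nonneg (Finset.erase_subset i E)
              fun m _ _ => hw m
    by_cases hc2 : ∃ i ∈ E, ∃ j ∈ E, i ≠ j ∧ ∀ z ∈ Zs E a b, z i = z j
    · obtain ⟨i, hi, j, hj, hij, hser⟩ := hc2
      have hab : a j ≠ b j := by
        intro hab
        have := hser _ (single_mem hj hab)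
        simp [hij] at this
      have hiE' : i ∈ E.erase j := Finset.mem_erase.2 ⟨hij, hi⟩
      set w' : ι → ℝ := fun m => w m + (if m = i then w j else 0) with hw'
      have hw'0 : ∀ m, 0 ≤ w' m := fun m => by
        simp only [hw']
        split_ifs
        · exact add_nonneg (hw _) (hw _)
        · rw [add_zero]; exact hw _
      obtain ⟨S, hS1, hS2, hS3⟩ := ih (E.erase j) (hcard j hj) (con a b j ∘ a) (con a b j ∘ b)
        w' hw'0 (hCon ι V E a b t E j hj hBD)
      have hzero : ∀ z ∈ S, z j = 0 := fun z hz =>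
        (Zs_mem.1 (hS1 z hz)).1 j (Finset.notMem_erase j E)
      have hinj : Set.InjOn (back i j) (S : Set (ι → ZMod 2)) := by
        intro x hx y hy hxy
        funext m
        by_cases hm : m = j
        · rw [hm, hzero x hx, hzero y hy]
        · have := congrFun hxy m
          rw [back_apply, back_apply, if_neg hm, mul_zero, mul_zero, add_zero, add_zero] at this
          exact this
      refine ⟨S.image (back i j), ?_, ?_, ?_⟩
      · intro z hz
        obtain ⟨z', hz', rfl⟩ := Finset.mem_image.1 hz
        exact back_mem hj hij hab hser (hS1 z' hz')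
      · intro f hf
        have h1 := hS2 (del_mem hj hab hf)
        have h2 : back i j (Function.update f j 0) = f := by
          funext m
          rw [back_apply, Function.update_of_ne hij]
          by_cases hm : m = j
          · rw [hm, Function.update_self, if_pos rfl, zero_add, mul_one]
            exact hser f hf
          · rw [Function.update_of_ne hm, if_neg hm, mul_zero, add_zero]
        rw [Finset.coe_image, Submodule.span_image, ← h2]
        exact Submodule.mem_map_of_mem h1
      · rw [Finset.sum_image hinj]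
        have hwt : ∀ z ∈ S, ∑ m ∈ E, (if back i j z m ≠ 0 then w m else 0) =
            ∑ m ∈ E.erase j, (if z m ≠ 0 then w' m else 0) := by
          intro z hz
          rw [← Finset.add_sum_erase E _ hj, ← Finset.add_sum_erase (E.erase j) _ hiE',
            ← Finset.add_sum_erase (E.erase j) (fun m => if z m ≠ 0 then w' m else 0) hiE']
          have e1 : back i j z j = z i := by
            rw [back_apply, hzero z hz, if_pos rfl, mul_one, zero_add]
          have e2 : ∀ m, m ≠ j → back i j z m = z m := by
            intro m hm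
            rw [back_apply, if_neg hm, mul_zero, add_zero]
          rw [e1, e2 i hij, ← add_assoc]
          congr 1
          · simp only [hw', if_true]
            by_cases hzi : z i = 0
            · simp [hzi]
            · simp only [ne_eq, hzi, not_false_eq_true, if_true]
              ring
          · refine Finset.sum_congr rfl fun m hm => ?_
            have hmi : m ≠ i := Finset.ne_of_mem_erase hm
            have hmj : m ≠ j := Finset.ne_of_mem_erase (Finset.mem_of_mem_erase hm)
            rw [e2 m hmj]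
            simp only [hw', if_neg hmi, add_zero]
        rw [Finset.sum_congr rfl hwt]
        refine le_trans hS3 (le_of_eq ?_)
        congr 1
        rw [← Finset.add_sum_erase E _ hj, hw', Finset.sum_add_distrib,
          Finset.sum_ite_eq' (E.erase j) i (fun _ => w j), if_pos hiE', add_comm]
    · push Not at hc1 hc2
      obtain ⟨z, hz, ⟨i₀, hi₀, hzi₀⟩, hcz⟩ := short_cycle_t hG hC hS ht hκt hE hBD hc1 hc2
      obtain ⟨i, hiF, hmax⟩ := Finset.exists_max_image (E.filter fun i => z i ≠ 0) w
        ⟨i₀, Finset.mem_filter.2 ⟨hi₀, hzi₀⟩⟩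
      obtain ⟨hi, hzi⟩ := Finset.mem_filter.1 hiF
      have hzi1 : z i = 1 := (zmod2_cases (z i)).resolve_left hzi
      obtain ⟨S, hS1, hS2, hS3⟩ := ih (E.erase i) (hcard i hi) a b w hw
        (hDel ι V E a b t E i hBD)
      have hzero : ∀ y ∈ S, y i = 0 := fun y hy =>
        (Zs_mem.1 (hS1 y hy)).1 i (Finset.notMem_erase i E)
      have hzS : z ∉ S := fun h => hzi (hzero z h)
      refine ⟨insert z S, ?_, ?_, ?_⟩
      · intro y hy
        rcases Finset.mem_insert.1 hy with h | h
        · rw [h]; exact hz
        · exact Zs_erase_le hi (hS1 y h)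
      · intro y hy
        have hy' : y - y i • z ∈ Zs (E.erase i) a b := by
          refine Zs_erase_mem hi ((Zs E a b).sub_mem hy ((Zs E a b).smul_mem _ hz)) ?_
          rw [Pi.sub_apply, Pi.smul_apply, smul_eq_mul, hzi1, mul_one, sub_self]
        have h1 : y - y i • z ∈ Submodule.span (ZMod 2)
            ((insert z S : Finset (ι → ZMod 2)) : Set (ι → ZMod 2)) := by
          refine Submodule.span_mono ?_ (hS2 hy')
          rw [Finset.coe_insert]
          exact Set.subset_insert _ _
        have h2 : y i • z ∈ Submodule.span (ZMod 2)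
            ((insert z S : Finset (ι → ZMod 2)) : Set (ι → ZMod 2)) := by
          refine Submodule.smul_mem _ _ (Submodule.subset_span ?_)
          rw [Finset.coe_insert]
          exact Set.mem_insert _ _
        have := Submodule.add_mem _ h1 h2
        rwa [sub_add_cancel] at this
      · rw [Finset.sum_insert hzS]
        have hA : ∑ m ∈ E, (if z m ≠ 0 then w m else 0) ≤ (8 * κ : ℝ) * w i := by
          rw [← Finset.sum_filter]
          calc ∑ m ∈ E with z m ≠ 0, w m
              ≤ ∑ m ∈ E with z m ≠ 0, w i := Finset.sum_le_sum fun m hm => hmax m hm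
            _ = ((E.filter fun m => z m ≠ 0).card : ℝ) * w i := by
                rw [Finset.sum_const, nsmul_eq_mul]
            _ ≤ (8 * κ : ℝ) * w i := by
                refine mul_le_mul_of_nonneg_right ?_ (hw i)
                exact_mod_cast hcz
        have hB : ∑ y ∈ S, ∑ m ∈ E, (if y m ≠ 0 then w m else 0) ≤
            (8 * κ : ℝ) * ∑ m ∈ E.erase i, w m := by
          refine le_trans (le_of_eq ?_) hS3
          refine Finset.sum_congr rfl fun y hy => ?_
          exact wt_erase w hi (hzero y hy)
        rw [← Finset.add_sum_erase E w hi, mul_add]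
        exact add_le_add hA hB

end Pool.MP_35885f.LG
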